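import Pool.Agent.T9h41.XG.Powers

/-!
# Higher Chow groups of the powers of a variety over a finite field
-/

set_option autoImplicit false
set_option linter.unusedSectionVars false

open CategoryTheory Limits MonoidalCategory Module Filter Topology Polynomial
open Pool.Agent.Y112.SR Pool.Agent.Y112.KD Pool.Agent.N64.AF

namespace Pool.Agent.T9h41.XG

universe v u w t x

variable {C : Type u} [Category.{v} C] [Preadditive C] [MonoidalCategory C]
  [MonoidalPreadditive C] [SymmetricCategory C] [RightRigidCategory C]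
  {Λ : Type t} [Field Λ] [CharZero Λ] [Linear Λ C] [MonoidalLinear Λ C]
  {K : Type w} [Field K] [IsAlgClosed K] [Algebra Λ K] {R : SuperRealisation C K}

/-- The groups of all degrees: `chow M 0 (Y)` are the morphisms from the unit object to `Y` (the Chow
group of `Y`), and `chow M (μ + 1) = M μ`. -/
def chow (Λ : Type t) [Field Λ] [Linear Λ C] (M : ℕ → (C ⥤ ModuleCat.{v} Λ)) :
    ℕ → (C ⥤ ModuleCat.{v} Λ)
  | 0 => homF Λ (𝟙_ C)
  | μ + 1 => M μ

/-- `M μ (Y)` is the higher Chow group `CH^*(Y, μ + 1)`, with all codimensions together and coefficients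
in `Λ`; correspondences act on it; it is zero for the point, and the Frobenius of the powers of `T`
acts on the groups of codimension `i` as `q ^ i`. -/
structure IsHigherChow (Λ : Type t) [Field Λ] [Linear Λ C] (q : ℕ) {T : C}
    (Fr : ∀ n, tp T n ⟶ tp T n) (M : ℕ → (C ⥤ ModuleCat.{v} Λ)) : Prop where
  additive : ∀ μ, (M μ).Additive
  linear : ∀ μ, (M μ).Linear Λ
  point : ∀ μ, Subsingleton ((M μ).obj (𝟙_ C))
  frobenius : ∀ μ n, Killed q (chow Λ M μ) (Fr n)

/-- The cycle class map of the degree `μ` is injective for `Y`. For `μ = 0`: classes of cycles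
which are linearly independent over `Λ` are linearly independent over `K` in the cohomology. For
`μ > 0` the target is zero, so the group is zero. -/
def CInjective (Λ : Type t) [Field Λ] [Linear Λ C] (R : SuperRealisation C K)
    (M : ℕ → (C ⥤ ModuleCat.{v} Λ)) (Y : C) : ℕ → Prop
  | 0 => ∀ (ι : Type) (γ : ι → (𝟙_ C ⟶ Y)), LinearIndependent Λ γ →
      LinearIndependent K (fun i => (R.H.map (γ i)).hom)
  | μ + 1 => Subsingleton ((M μ).obj Y)

/-- Exponential growth with a rate larger than `b`: the dimension (a number or infinity) of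
`F (X ^ ((2 N + 1) m))` is at least `(b ^ m + 1) ^ (2 N) / (N + 1) ^ (b ^ (2 m) + 1)` for all `N`. -/
def GrowsFast (Λ : Type t) [Field Λ] [Linear Λ C] (F : C ⥤ ModuleCat.{v} Λ) (X : C) (b m : ℕ) :
    Prop :=
  ∀ N : ℕ, (((b ^ m + 1) ^ (2 * N) : ℕ) : ℕ∞) ≤
    ((N + 1) ^ (b ^ (2 * m) + 1) : ℕ) * dimE Λ (F.obj (tp X ((2 * N + 1) * m)))

/-- Growth with a rate at most `b` (the lower limit of the `n`-th root of the dimension of
`F (X ^ n)` is at most `b`): for each real number `a > b` the dimension of `F (X ^ n)` is finite and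
at most `a ^ n` for infinitely many `n`. -/
def RateLe (Λ : Type t) [Field Λ] [Linear Λ C] (F : C ⥤ ModuleCat.{v} Λ) (X : C) (b : ℕ) : Prop :=
  ∀ a : ℝ, (b : ℝ) < a → ∃ᶠ n in atTop,
    Module.Finite Λ (F.obj (tp X n)) ∧ (finrank Λ (F.obj (tp X n)) : ℝ) ≤ a ^ n

lemma chow_additive {q : ℕ} {T : C} {Fr : ∀ n, tp T n ⟶ tp T n} {M : ℕ → (C ⥤ ModuleCat.{v} Λ)}
    (hM : IsHigherChow Λ q Fr M) : ∀ μ, (chow Λ M μ).Additive
  | 0 => inferInstanceAs (homF Λ (𝟙_ C)).Additive
  | μ + 1 => hM.additive μ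

lemma chow_linear {q : ℕ} {T : C} {Fr : ∀ n, tp T n ⟶ tp T n} {M : ℕ → (C ⥤ ModuleCat.{v} Λ)}
    (hM : IsHigherChow Λ q Fr M) : ∀ μ, (chow Λ M μ).Linear Λ
  | 0 => inferInstanceAs ((homF Λ (𝟙_ C)).Linear Λ)
  | μ + 1 => hM.linear μ

/-- The Künneth formula implies that independent cycles have independent classes. -/
theorem independent_of_kunneth (hR : IsReal Λ R) {Y : C} (h : Kunneth (homF Λ (𝟙_ C)) Y)
    (ι : Type) (γ : ι → (𝟙_ C ⟶ Y)) (hγ : LinearIndependent Λ γ) :
    LinearIndependent K (fun i => (R.H.map (γ i)).hom) := by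
  classical
  obtain ⟨α, β, hαβ, hexp⟩ := h
  have hexp' : ∀ v : 𝟙_ C ⟶ Y, v = ∑ j, (v ≫ β j) ≫ α j := by
    intro v
    have h1 := hexp v
    have h2 : ∀ j, ((homF Λ (𝟙_ C)).map (β j ≫ α j)).hom v = (v ≫ β j) ≫ α j := by
      intro j
      rw [homF_map, Category.assoc]
    rw [Finset.sum_congr rfl fun j _ => h2 j] at h1
    exact h1
  -- the coefficients
  choose b hb using fun (v : 𝟙_ C ⟶ Y) (j : Fin (numRank Λ Y)) => hR.unit (v ≫ β j)
  rw [linearIndependent_iff']
  intro s c hc i₀ hi₀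
  -- a functional
  obtain ⟨f, hf⟩ : ∃ f : (𝟙_ C ⟶ Y) →ₗ[Λ] Λ, ∀ i, f (γ i) = if i = i₀ then 1 else 0 := by
    obtain ⟨f, hf⟩ := LinearMap.exists_extend
      ((Finsupp.lapply i₀ : (ι →₀ Λ) →ₗ[Λ] Λ) ∘ₗ hγ.repr)
    refine ⟨f, fun i => ?_⟩
    have h1 := LinearMap.congr_fun hf ⟨γ i, Submodule.subset_span ⟨i, rfl⟩⟩
    have h2 : hγ.repr ⟨γ i, Submodule.subset_span ⟨i, rfl⟩⟩ = Finsupp.single i 1 :=
      hγ.repr_eq_single i _ rfl
    rw [LinearMap.comp_apply, LinearMap.comp_apply] at h1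
    change f (γ i) = Finsupp.lapply i₀ (hγ.repr _) at h1
    rw [h1, h2, Finsupp.lapply_apply, Finsupp.single_apply]
  have hfexp : ∀ v : 𝟙_ C ⟶ Y, f v = ∑ j, b v j * f (α j) := by
    intro v
    conv_lhs => rw [hexp' v]
    rw [map_sum]
    refine Finset.sum_congr rfl fun j _ => ?_
    rw [hb, Linear.smul_comp, Category.id_comp, map_smul, smul_eq_mul]
  -- the realisation of the coefficients
  have hzero : ∀ j, ∑ i ∈ s, c i * algebraMap Λ K (b (γ i) j) = 0 := by
    intro j
    have h1 : ∀ i, (R.H.map (β j)).hom ∘ₗ (R.H.map (γ i)).hom =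
        algebraMap Λ K (b (γ i) j) • LinearMap.id := by
      intro i
      have h2 := congrArg (fun m => (R.H.map m).hom) (hb (γ i) j)
      simp only [R.H.map_comp] at h2
      rw [hR.lin, R.H.map_id] at h2
      exact h2
    have h4 : finrank K (R.H.obj (𝟙_ C)) = 1 := bt_unit R
    have h5 : 0 < finrank K (R.H.obj (𝟙_ C)) := by omega
    obtain ⟨x, hx⟩ := Module.finrank_pos_iff_exists_ne_zero.1 h5
    have h2 : (R.H.map (β j)).hom ((∑ i ∈ s, c i • (R.H.map (γ i)).hom) x) = 0 := by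
      rw [hc, LinearMap.zero_apply, map_zero]
    rw [LinearMap.sum_apply, map_sum] at h2
    have h3 : ∀ i, (R.H.map (β j)).hom ((c i • (R.H.map (γ i)).hom) x) =
        (c i * algebraMap Λ K (b (γ i) j)) • x := by
      intro i
      have h6 := LinearMap.congr_fun (h1 i) x
      rw [LinearMap.comp_apply, LinearMap.smul_apply, LinearMap.id_apply] at h6
      rw [LinearMap.smul_apply, map_smul, h6, smul_smul]
    rw [Finset.sum_congr rfl fun i _ => h3 i, ← Finset.sum_smul] at h2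
    rcases smul_eq_zero.1 h2 with h | h
    · exact h
    · exact absurd h hx
  have h1 : ∑ i ∈ s, c i * algebraMap Λ K (f (γ i)) = 0 := by
    have h2 : ∀ i, c i * algebraMap Λ K (f (γ i)) =
        ∑ j, algebraMap Λ K (f (α j)) * (c i * algebraMap Λ K (b (γ i) j)) := by
      intro i
      rw [hfexp, map_sum, Finset.mul_sum]
      refine Finset.sum_congr rfl fun j _ => ?_
      rw [map_mul]
      ring
    rw [Finset.sum_congr rfl fun i _ => h2 i, Finset.sum_comm]
    refine Finset.sum_eq_zero fun j _ => ?_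
    rw [← Finset.mul_sum, hzero, mul_zero]
  rw [Finset.sum_eq_single i₀] at h1
  · rw [hf, if_pos rfl, map_one, mul_one] at h1
    exact h1
  · intro i _ hi
    rw [hf, if_neg hi, map_zero, mul_zero]
  · intro h
    exact absurd hi₀ h

lemma kunneth_zero {F : C ⥤ ModuleCat.{x} Λ} {Y : C} (h : Kunneth F Y)
    (h0 : Subsingleton (F.obj (𝟙_ C))) : Subsingleton (F.obj Y) := by
  obtain ⟨α, β, -, hexp⟩ := h
  refine subsingleton_of_forall_eq 0 fun v => ?_
  rw [hexp v]
  refine Finset.sum_eq_zero fun i _ => ?_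
  rw [F.map_comp]
  change (F.map (α i)).hom ((F.map (β i)).hom v) = 0
  rw [Subsingleton.elim ((F.map (β i)).hom v) 0, map_zero]

theorem cInjective_of_kunneth (hR : IsReal Λ R) {q : ℕ} {T : C} {Fr : ∀ n, tp T n ⟶ tp T n}
    {M : ℕ → (C ⥤ ModuleCat.{v} Λ)} (hM : IsHigherChow Λ q Fr M) {Y : C} :
    ∀ μ, Kunneth (chow Λ M μ) Y → CInjective Λ R M Y μ
  | 0, h => independent_of_kunneth hR h
  | μ + 1, h => kunneth_zero h (hM.point μ)

/-- The first part. -/
theorem part_one {T : C} [ExactPairing T T] (h : IsPow Λ R T) {q : ℕ} (hq : 1 < q)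
    {Fr : ∀ n, tp T n ⟶ tp T n} {M : ℕ → (C ⥤ ModuleCat.{v} Λ)} (hM : IsHigherChow Λ q Fr M)
    (μ m : ℕ) (hT : IsTateSS Λ R q (Fr m)) (hn : ¬ CInjective Λ R M (tp T m) μ) :
    GrowsFast Λ (chow Λ M μ) T (bt R T) m := by
  intro N
  have := chow_additive hM μ
  have := chow_linear hM μ
  rcases dichotomy h.real (cplus_tp h.real h.cplus m) hq (Fr m) hT (hM.frobenius 0 m)
    (chow Λ M μ) (hM.frobenius μ m) with h1 | h1
  · exact absurd (cInjective_of_kunneth h.real hM μ h1) hn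
  · have h2 := h1 N
    rw [bt_tp, ← pow_mul, mul_comm m 2] at h2
    refine h2.trans (mul_le_mul_right ?_ _)
    obtain ⟨i⟩ := powers_iso T m N
    exact dimE_retract _ i.hom i.inv i.hom_inv_id

/-- If the cycle class maps are injective then the groups are small. -/
theorem small_of_injective {T : C} (n : ℕ) {M : ℕ → (C ⥤ ModuleCat.{v} Λ)} :
    ∀ μ, CInjective Λ R M (tp T n) μ → Module.Finite Λ ((chow Λ M μ).obj (tp T n)) ∧
      finrank Λ ((chow Λ M μ).obj (tp T n)) ≤ bt R T ^ n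
  | 0, h => by
    have hf1 : Module.Finite K (R.H.obj (𝟙_ C)) := R.finite _
    have hf2 : Module.Finite K (R.H.obj (tp T n)) := R.finite _
    have h1 : Module.rank Λ (𝟙_ C ⟶ tp T n) ≤ (bt R T ^ n : ℕ) := by
      refine rank_le fun s hs => ?_
      let e : Fin s.card ≃ s := s.equivFin.symm
      have h2 := h (Fin s.card) (fun i => (e i : 𝟙_ C ⟶ tp T n)) (hs.comp e e.injective)
      have h3 := h2.fintype_card_le_finrank
      rw [Fintype.card_fin, Module.finrank_linearMap] at h3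
      have h4 : finrank K (R.H.obj (𝟙_ C)) = 1 := bt_unit R
      rw [h4, one_mul] at h3
      refine h3.trans (le_of_eq ?_)
      exact bt_tp R T n
    have h2 : Module.Finite Λ (𝟙_ C ⟶ tp T n) :=
      Module.rank_lt_aleph0_iff.1 (h1.trans_lt Cardinal.natCast_lt_aleph0)
    refine ⟨h2, ?_⟩
    have h3 : finrank Λ (𝟙_ C ⟶ tp T n) ≤ bt R T ^ n := by
      rw [← Module.finrank_eq_rank] at h1
      exact_mod_cast h1
    exact h3
  | μ + 1, h => by
    have h1 : Subsingleton ((M μ).obj (tp T n)) := h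
    have h2 : Finite ((M μ).obj (tp T n)) := Finite.of_subsingleton
    refine ⟨(inferInstance : Module.Finite Λ ((M μ).obj (tp T n))), ?_⟩
    change finrank Λ ((M μ).obj (tp T n)) ≤ _
    rw [Module.finrank_zero_of_subsingleton]
    exact Nat.zero_le _

lemma monotone_dimE {T : C} [ExactPairing T T] (h : IsPow Λ R T) (F : C ⥤ ModuleCat.{x} Λ) :
    Monotone fun n => dimE Λ (F.obj (tp T n)) := by
  refine monotone_nat_of_le_succ fun n => ?_
  obtain ⟨i, r, hir⟩ := h.retract
  exact dimE_retract F _ _ (E1aux.retract_tp hir n)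

/-- The second part. -/
theorem part_two {T : C} [ExactPairing T T] (h : IsPow Λ R T) {q : ℕ} (hq : 1 < q)
    {Fr : ∀ n, tp T n ⟶ tp T n} {M : ℕ → (C ⥤ ModuleCat.{v} Λ)} (hM : IsHigherChow Λ q Fr M)
    (μ : ℕ) (hT : ∀ m, IsTateSS Λ R q (Fr m)) :
    (∀ n, CInjective Λ R M (tp T n) μ) ↔ RateLe Λ (chow Λ M μ) T (bt R T) := by
  constructor
  · intro hall a ha
    refine Frequently.of_forall fun n => ?_
    obtain ⟨h1, h2⟩ := small_of_injective n μ (hall n)
    refine ⟨h1, ?_⟩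
    have h3 : (finrank Λ ((chow Λ M μ).obj (tp T n)) : ℝ) ≤ (bt R T : ℝ) ^ n := by
      exact_mod_cast h2
    exact h3.trans (pow_le_pow_left₀ (Nat.cast_nonneg _) ha.le n)
  · intro hsmall m
    by_contra hn
    have h1 := part_one h hq hM μ m (hT m) hn
    rcases Nat.eq_zero_or_pos m with rfl | hm
    · -- the point
      have h2 := h1 3
      have h3 : dimE Λ ((chow Λ M μ).obj (tp T ((2 * 3 + 1) * 0))) ≤ 1 := by
        cases μ with
        | zero =>
          change dimE Λ (𝟙_ C ⟶ 𝟙_ C) ≤ 1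
          have h4 : Submodule.span Λ {𝟙 (𝟙_ C)} = (⊤ : Submodule Λ (𝟙_ C ⟶ 𝟙_ C)) := by
            rw [eq_top_iff]
            intro f _
            obtain ⟨c, hc⟩ := h.real.unit f
            exact Submodule.mem_span_singleton.2 ⟨c, hc.symm⟩
          have h5 : Module.Finite Λ (𝟙_ C ⟶ 𝟙_ C) :=
            ⟨⟨{𝟙 (𝟙_ C)}, by rw [Finset.coe_singleton]; exact h4⟩⟩
          rw [dimE_eq]
          have h6 : finrank Λ (𝟙_ C ⟶ 𝟙_ C) ≤ 1 :=
            finrank_le_one (𝟙 (𝟙_ C)) fun f => by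
              obtain ⟨c, hc⟩ := h.real.unit f
              exact ⟨c, hc.symm⟩
          exact_mod_cast h6
        | succ μ =>
          have h4 : Subsingleton ((M μ).obj (𝟙_ C)) := hM.point μ
          change dimE Λ ((M μ).obj (𝟙_ C)) ≤ 1
          have h5 : Finite ((M μ).obj (𝟙_ C)) := Finite.of_subsingleton
          have h6 : Module.Finite Λ ((M μ).obj (𝟙_ C)) := inferInstance
          rw [dimE_eq, finrank_zero_of_subsingleton]
          exact_mod_cast Nat.zero_le 1
      have h7 : (((bt R T ^ 0 + 1) ^ (2 * 3) : ℕ) : ℕ∞) ≤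
          ((3 + 1) ^ (bt R T ^ (2 * 0) + 1) : ℕ) * 1 := h2.trans (mul_le_mul_right h3 _)
      rw [mul_one] at h7
      have h8 : (bt R T ^ 0 + 1) ^ (2 * 3) ≤ (3 + 1) ^ (bt R T ^ (2 * 0) + 1) := by
        exact_mod_cast h7
      norm_num at h8
    · obtain ⟨a, ha, hev⟩ := growth_rate hm (bt_pos h) _ (monotone_dimE h (chow Λ M μ)) h1
      obtain ⟨n, ⟨hn1, hn2⟩, hn3⟩ := ((hsmall a ha).and_eventually hev).exists
      have h5 := hn3 _ dimE_eq
      exact absurd hn2 (not_le.2 h5)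

end Pool.Agent.T9h41.XG
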