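import Pool.Agent.T9h41.XG.Main

/-!
# The exponential gap
-/

set_option autoImplicit false
set_option linter.unusedSectionVars false

open CategoryTheory Limits MonoidalCategory Module Finset
open Pool.Agent.Y112.SR Pool.Agent.Y112.KD Pool.Agent.N64.AF
open Pool.Agent.Y116.MT (tr)

namespace Pool.Agent.T9h41.XG

universe v u w t x

section comb

lemma sum_pascal (h : ℕ → ℕ) (k : ℕ) :
    ∑ a ∈ range (k + 1), k.choose a * h a + ∑ a ∈ range (k + 1), k.choose a * h (a + 1) =
      ∑ a ∈ range (k + 2), (k + 1).choose a * h a := by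
  rw [Finset.sum_range_succ' (fun a => (k + 1).choose a * h a) (k + 1)]
  have h1 : ∀ a, (k + 1).choose (a + 1) * h (a + 1) =
      k.choose a * h (a + 1) + k.choose (a + 1) * h (a + 1) := fun a => by
    rw [Nat.choose_succ_succ', add_mul]
  rw [Finset.sum_congr rfl fun a _ => h1 a, Finset.sum_add_distrib, Nat.choose_zero_right]
  have h2 : ∑ a ∈ range (k + 1), k.choose a * h a =
      ∑ a ∈ range (k + 1), k.choose (a + 1) * h (a + 1) + 1 * h 0 := by
    have h3 := Finset.sum_range_succ' (fun a => k.choose a * h a) (k + 1)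
    rw [Finset.sum_range_succ, Nat.choose_succ_self, zero_mul, add_zero,
      Nat.choose_zero_right] at h3
    exact h3
  rw [h2]
  ring

lemma wS_choose (g : ℕ → ℕ) : ∀ (k : ℕ) (l : List Bool),
    wS (fun l => g (nf l)) k l = ∑ a ∈ range (k + 1), k.choose a * g (nf l + a)
  | 0, l => by simp [wS]
  | k + 1, l => by
    have h1 := wS_choose g k (true :: l)
    have h2 := wS_choose g k (false :: l)
    change wS _ k (true :: l) + wS _ k (false :: l) = _
    rw [h1, h2, ← sum_pascal (fun a => g (nf l + a)) k]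
    congr 1
    refine Finset.sum_congr rfl fun a _ => ?_
    have h3 : nf (false :: l) + a = nf l + (a + 1) := by
      change nf l + 1 + a = _
      omega
    rw [h3]

lemma wS_eval (r : ℕ → ℕ) (N : ℕ) :
    wS (fun l => wS (fun l' => if nf l = nf l' then r (nf l) else 0) N []) N [] =
      ∑ a ∈ range (N + 1), N.choose a * (N.choose a * r a) := by
  have h1 : ∀ l : List Bool, wS (fun l' => if nf l = nf l' then r (nf l) else 0) N [] =
      N.choose (nf l) * r (nf l) := by
    intro l
    rw [wS_choose (fun m => if nf l = m then r (nf l) else 0) N []]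
    change ∑ a ∈ range (N + 1), N.choose a * (if nf l = 0 + a then r (nf l) else 0) = _
    by_cases hl : nf l ≤ N
    · rw [Finset.sum_eq_single (nf l)]
      · rw [Nat.zero_add, if_pos rfl]
      · intro b _ hb
        rw [Nat.zero_add, if_neg (Ne.symm hb), mul_zero]
      · intro h
        exact absurd (Finset.mem_range.2 (by omega)) h
    · rw [Nat.choose_eq_zero_of_lt (by omega), zero_mul]
      refine Finset.sum_eq_zero fun a ha => ?_
      have := Finset.mem_range.1 ha
      rw [if_neg (by omega), mul_zero]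
  simp only [h1]
  rw [wS_choose (fun m => N.choose m * r m) N []]
  refine Finset.sum_congr rfl fun a _ => ?_
  change N.choose a * (N.choose (0 + a) * r (0 + a)) = _
  rw [Nat.zero_add]

lemma sum_sq (b D N : ℕ) (r : ℕ → ℕ) (hr : ∀ a ≤ N, (b ^ 2) ^ a ≤ D * r a) :
    (b + 1) ^ (2 * N) ≤ (N + 1) * (D * ∑ a ∈ range (N + 1), N.choose a * (N.choose a * r a)) := by
  have h1 : (b + 1) ^ N = ∑ a ∈ range (N + 1), N.choose a * b ^ a := by
    rw [add_pow]
    refine Finset.sum_congr rfl fun a _ => ?_
    rw [one_pow, mul_one, Nat.cast_id, mul_comm]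
  have h2 : (∑ a ∈ range (N + 1), N.choose a * b ^ a) ^ 2 ≤
      (N + 1) * ∑ a ∈ range (N + 1), (N.choose a * b ^ a) ^ 2 := by
    have := sq_sum_le_card_mul_sum_sq (s := range (N + 1)) (f := fun a => N.choose a * b ^ a)
    rwa [Finset.card_range] at this
  calc (b + 1) ^ (2 * N) = ((b + 1) ^ N) ^ 2 := by rw [← pow_mul, mul_comm]
    _ = (∑ a ∈ range (N + 1), N.choose a * b ^ a) ^ 2 := by rw [h1]
    _ ≤ (N + 1) * ∑ a ∈ range (N + 1), (N.choose a * b ^ a) ^ 2 := h2
    _ ≤ _ := by
      refine Nat.mul_le_mul_left _ ?_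
      rw [Finset.mul_sum]
      refine Finset.sum_le_sum fun a ha => ?_
      have h3 := hr a (by have := Finset.mem_range.1 ha; omega)
      calc (N.choose a * b ^ a) ^ 2 = N.choose a * (N.choose a * (b ^ 2) ^ a) := by ring
        _ ≤ N.choose a * (N.choose a * (D * r a)) :=
            Nat.mul_le_mul_left _ (Nat.mul_le_mul_left _ h3)
        _ = D * (N.choose a * (N.choose a * r a)) := by ring

end comb

variable {C : Type u} [Category.{v} C] [Preadditive C] [MonoidalCategory C]
  [MonoidalPreadditive C] [SymmetricCategory C] [RightRigidCategory C]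
  {Λ : Type t} [Field Λ] [CharZero Λ] [Linear Λ C] [MonoidalLinear Λ C]
  {K : Type w} [Field K] [IsAlgClosed K] [Algebra Λ K] {R : SuperRealisation C K}

/-- **The exponential gap.** If a numerically trivial endomorphism of `X` is not nilpotent on `F (X)`
then the dimensions of the values of `F` on the powers of `X ⊗ Xᘁ` grow faster than the powers of the
dimension of their realisation. -/
theorem exp_gap (hR : IsReal Λ R) {X : C} (hX : R.CPlus X) {y : X ⟶ X} (hy : NumTriv y)
    (F : C ⥤ ModuleCat.{x} Λ) [F.Additive] [F.Linear Λ]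
    (hn : ¬ IsNilpotent ((F.map y).hom : Module.End Λ (F.obj X))) (N : ℕ) :
    (((bt R X + 1) ^ (2 * N) : ℕ) : ℕ∞) ≤
      ((N + 1) ^ (bt R X ^ 2 + 1) : ℕ) * dimE Λ (F.obj (tp (X ⊗ Xᘁ) N ⊗ X)) := by
  by_cases hfin : Module.Finite Λ (F.obj (tp (X ⊗ Xᘁ) N ⊗ X))
  · rw [dimE_eq]
    have h1 := exp_growth_words hR hy F hn N hfin
    rw [wS_eval (fun a => numRank Λ (tp (X ⊗ Xᘁ) a))] at h1
    have h2 := sum_sq (bt R X) ((N + 1) ^ (bt R X ^ 2)) N
      (fun a => numRank Λ (tp (X ⊗ Xᘁ) a)) (fun a ha => by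
        have h3 := growth (Λ := Λ) hR hX a
        rw [← numRank_tensor_dual hR] at h3
        refine h3.trans (Nat.mul_le_mul_right _ ?_)
        exact Nat.pow_le_pow_left (by omega) _)
    have h4 : (bt R X + 1) ^ (2 * N) ≤ (N + 1) ^ (bt R X ^ 2 + 1) *
        finrank Λ (F.obj (tp (X ⊗ Xᘁ) N ⊗ X)) := by
      refine h2.trans ?_
      have e : (N + 1) ^ (bt R X ^ 2 + 1) = (N + 1) * (N + 1) ^ (bt R X ^ 2) := by
        rw [pow_succ (N + 1) (bt R X ^ 2), mul_comm]
      rw [← mul_assoc, e]
      exact Nat.mul_le_mul_left _ h1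
    exact_mod_cast h4
  · rw [dimE_top hfin, ENat.mul_top]
    · exact le_top
    · have : 0 < (N + 1) ^ (bt R X ^ 2 + 1) := by positivity
      exact_mod_cast this.ne'

end Pool.Agent.T9h41.XG
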