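import Mathlib

/-!
# A common Fitting polynomial for finitely many operators, and ranks
-/

set_option autoImplicit false

open Polynomial Module

namespace Pool.Agent.T9h41.XG

universe t x

variable {Λ : Type t} [Field Λ]

/-- One polynomial `q` such that `a q(a)` is the Fitting idempotent of `a` for all operators `a` of a
finite family. -/
theorem exists_fit_family {ι : Type*} [Finite ι] (V : ι → Type x) [∀ i, AddCommGroup (V i)]
    [∀ i, Module Λ (V i)] [∀ i, Module.Finite Λ (V i)] (a : ∀ i, Module.End Λ (V i)) :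
    ∃ (q : Λ[X]) (c : ℕ), ∀ i, IsIdempotentElem (aeval (a i) q * a i) ∧
      (a i) ^ c * (aeval (a i) q * a i) = (a i) ^ c := by
  classical
  cases nonempty_fintype ι
  set M : Λ[X] := ∏ i, minpoly Λ (a i) with hM
  have hM0 : M ≠ 0 := Finset.prod_ne_zero_iff.2 fun i _ =>
    minpoly.ne_zero (Algebra.IsIntegral.isIntegral (a i))
  have hMa : ∀ i (r : Λ[X]), aeval (a i) (r * M) = 0 := fun i r => by
    have h1 : minpoly Λ (a i) ∣ r * M :=
      (Finset.dvd_prod_of_mem _ (Finset.mem_univ i)).mul_left r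
    obtain ⟨s, hs⟩ := h1
    rw [hs, map_mul, minpoly.aeval, zero_mul]
  obtain ⟨c, M', hM', hnd⟩ : ∃ (c : ℕ) (M' : Λ[X]), M = X ^ c * M' ∧ ¬ X ∣ M' := by
    obtain ⟨M', h1, h2⟩ := exists_eq_pow_rootMultiplicity_mul_and_not_dvd M hM0 0
    rw [map_zero, sub_zero] at h1 h2
    exact ⟨_, M', h1, h2⟩
  have hcop : IsCoprime (X ^ (c + 1) : Λ[X]) M' := by
    refine IsCoprime.pow_left ?_
    exact (irreducible_X.coprime_iff_not_dvd).2 hnd
  obtain ⟨u, v, huv⟩ := hcop
  refine ⟨u * X ^ c, c, fun i => ?_⟩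
  have hp : aeval (a i) (u * X ^ c) * a i = aeval (a i) (u * X ^ (c + 1)) := by
    rw [pow_succ, ← mul_assoc, map_mul (aeval (a i)) (u * X ^ c) X, aeval_X]
  rw [hp]
  constructor
  · unfold IsIdempotentElem
    rw [← map_mul, ← sub_eq_zero, ← map_sub]
    have : u * X ^ (c + 1) * (u * X ^ (c + 1)) - u * X ^ (c + 1) = (-(u * X * v)) * M := by
      have h1 : u * X ^ (c + 1) = 1 - v * M' := by rw [← huv]; ring
      calc u * X ^ (c + 1) * (u * X ^ (c + 1)) - u * X ^ (c + 1)
          = u * X ^ (c + 1) * (u * X ^ (c + 1) - 1) := by ring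
        _ = u * X ^ (c + 1) * (- (v * M')) := by rw [h1]; ring
        _ = (-(u * X * v)) * (X ^ c * M') := by ring
        _ = _ := by rw [← hM']
    rw [this]
    exact hMa i _
  · have h2 : (a i) ^ c = aeval (a i) (X ^ c : Λ[X]) := by rw [map_pow, aeval_X]
    rw [h2, ← map_mul, ← sub_eq_zero, ← map_sub]
    have : X ^ c * (u * X ^ (c + 1)) - X ^ c = (-v) * M := by
      have h1 : u * X ^ (c + 1) = 1 - v * M' := by rw [← huv]; ring
      rw [h1, hM']; ring
    rw [this]
    exact hMa i _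

/-- The rank of an operator is at least the sum of the ranks of its two parts. -/
theorem rank_split {V : Type x} [AddCommGroup V] [Module Λ V] [Module.Finite Λ V]
    (A φ : Module.End Λ V) (hφ : IsIdempotentElem φ) (hc : φ * A = A * φ) :
    finrank Λ (LinearMap.range (φ * A)) + finrank Λ (LinearMap.range ((1 - φ) * A)) ≤
      finrank Λ (LinearMap.range A) := by
  have h1 : LinearMap.range (φ * A) ≤ LinearMap.range A := by
    rw [hc]
    rintro _ ⟨v, rfl⟩
    exact ⟨φ v, rfl⟩
  have h2 : LinearMap.range ((1 - φ) * A) ≤ LinearMap.range A := by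
    have : (1 - φ) * A = A * (1 - φ) := by rw [sub_mul, mul_sub, one_mul, mul_one, hc]
    rw [this]
    rintro _ ⟨v, rfl⟩
    exact ⟨(1 - φ) v, rfl⟩
  have h3 : LinearMap.range (φ * A) ⊓ LinearMap.range ((1 - φ) * A) = ⊥ := by
    rw [eq_bot_iff]
    rintro w ⟨⟨u, hu⟩, ⟨v, hv⟩⟩
    rw [Submodule.mem_bot]
    have e1 : φ w = w := by
      rw [← hu]
      change (φ * (φ * A)) u = (φ * A) u
      rw [← mul_assoc, hφ.eq]
    have e2 : φ w = 0 := by
      rw [← hv]
      change (φ * ((1 - φ) * A)) v = 0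
      rw [← mul_assoc, mul_sub, mul_one, hφ.eq, sub_self, zero_mul]
      rfl
    rw [← e1, e2]
  have h4 := Submodule.finrank_sup_add_finrank_inf_eq (LinearMap.range (φ * A))
    (LinearMap.range ((1 - φ) * A))
  rw [h3, finrank_bot, add_zero] at h4
  rw [← h4]
  exact Submodule.finrank_mono (sup_le h1 h2)

end Pool.Agent.T9h41.XG
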