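import Mathlib

/-!
# Polynomials with prescribed behaviour at the powers of `q`
-/

set_option autoImplicit false

open Polynomial Module

namespace Pool.Agent.T9h41.XG

variable {Λ : Type*} [Field Λ]

/-- Splitting off the part prime to `Q`. -/
theorem exists_coprime_part (Q : Λ[X]) (n : ℕ) : ∀ p : Λ[X], p ≠ 0 → p.natDegree ≤ n →
    ∃ (p₂ : Λ[X]) (M : ℕ), p ∣ Q ^ M * p₂ ∧ IsCoprime p₂ Q := by
  induction n with
  | zero =>
    intro p hp hn
    refine ⟨1, 0, ?_, isCoprime_one_left⟩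
    rw [pow_zero, one_mul]
    rw [Nat.le_zero, natDegree_eq_zero] at hn
    obtain ⟨c, rfl⟩ := hn
    have hc : c ≠ 0 := fun h => hp (by rw [h, C_0])
    exact (isUnit_C.2 (isUnit_iff_ne_zero.2 hc)).dvd
  | succ n ih =>
    intro p hp hn
    by_cases hcop : IsCoprime p Q
    · exact ⟨p, 0, by rw [pow_zero, one_mul], hcop⟩
    · obtain ⟨g, hg, hgp, hgQ⟩ : ∃ g : Λ[X], ¬ IsUnit g ∧ g ∣ p ∧ g ∣ Q := by
        by_contra hcon
        push Not at hcon
        exact hcop (isCoprime_of_dvd p Q (fun h => hp h.1) fun z hz _ h1 h2 => hcon z hz h1 h2)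
      obtain ⟨p', hp'⟩ := hgp
      obtain ⟨Q', hQ'⟩ := hgQ
      have hg0 : g ≠ 0 := fun h => hp (by rw [hp', h, zero_mul])
      have hp'0 : p' ≠ 0 := fun h => hp (by rw [hp', h, mul_zero])
      have hdeg : p.natDegree = g.natDegree + p'.natDegree := by
        conv_lhs => rw [hp']
        exact natDegree_mul hg0 hp'0
      have hg1 : 0 < g.natDegree := by
        rw [Nat.pos_iff_ne_zero]
        intro h0
        apply hg
        rw [natDegree_eq_zero] at h0
        obtain ⟨c, hc⟩ := h0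
        rw [← hc]
        refine isUnit_C.2 (isUnit_iff_ne_zero.2 fun h => hg0 ?_)
        rw [← hc, h, C_0]
      obtain ⟨p₂, M, h1, h2⟩ := ih p' hp'0 (by omega)
      refine ⟨p₂, M + 1, ?_, h2⟩
      obtain ⟨r, hr⟩ := h1
      refine ⟨Q' * r, ?_⟩
      have e1 : Q ^ (M + 1) * p₂ = Q * (Q ^ M * p₂) := by ring
      rw [e1, hr]
      conv_lhs => rw [hQ']
      conv_rhs => rw [hp']
      ring

end Pool.Agent.T9h41.XG
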