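import Pool.Agent.T9h41.XG.Final
import Pool.Agent.T9h41.XG.Poly
import Pool.Agent.N64.AF.L1

/-!
# Frobenius and the Tate conjecture: the dichotomy
-/

set_option autoImplicit false
set_option linter.unusedSectionVars false

open CategoryTheory Limits MonoidalCategory Module Polynomial
open Pool.Agent.Y112.SR Pool.Agent.Y112.KD Pool.Agent.N64.AF
open Pool.Agent.Y116.MT (tr)

namespace Pool.Agent.T9h41.XG

universe v u w t x

section lin

variable {K : Type*} [Field K] [CharZero K]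

/-- The polynomial `∏ (x - q ^ i)`, `i < d`. -/
noncomputable def Qp (Λ : Type*) [Field Λ] (q d : ℕ) : Λ[X] :=
  ∏ i ∈ Finset.range d, (X - C ((q : Λ) ^ i))

lemma Qp_map {Λ : Type*} [Field Λ] (f : Λ →+* K) (q d : ℕ) : (Qp Λ q d).map f = Qp K q d := by
  unfold Qp
  rw [Polynomial.map_prod]
  refine Finset.prod_congr rfl fun i _ => ?_
  simp

lemma Qp_dvd (Λ : Type*) [Field Λ] (q : ℕ) {d e : ℕ} (h : d ≤ e) : Qp Λ q d ∣ Qp Λ q e := by
  unfold Qp
  exact Finset.prod_dvd_prod_of_subset _ _ _ (Finset.range_subset_range.2 h)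

/-- An element killed by a product of powers of the `L - q ^ i` is a sum of generalized eigenvectors. -/
theorem mem_of_killed {W : Type*} [AddCommGroup W] [Module K W] (L : Module.End K W)
    (S : Submodule K W) {q : ℕ} (hq : 1 < q)
    (hS : ∀ (i N : ℕ) (w : W), ((L - (q : K) ^ i • 1) ^ N) w = 0 → w ∈ S) (d N : ℕ) :
    ∀ w : W, aeval L ((Qp K q d) ^ N) w = 0 → w ∈ S := by
  induction d with
  | zero =>
    intro w hw
    have : w = 0 := by
      simpa [Qp] using hw
    rw [this]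
    exact S.zero_mem
  | succ d ih =>
    intro w hw
    have e1 : Qp K q (d + 1) = Qp K q d * (X - C ((q : K) ^ d)) := by
      unfold Qp
      rw [Finset.prod_range_succ]
    have hcop : IsCoprime (Qp K q d ^ N) ((X - C ((q : K) ^ d)) ^ N) := by
      refine IsCoprime.pow ?_
      unfold Qp
      refine IsCoprime.prod_left fun i hi => ?_
      refine isCoprime_X_sub_C_of_isUnit_sub (isUnit_iff_ne_zero.2 (sub_ne_zero.2 fun h => ?_))
      have h1 : (q ^ i : ℕ) = q ^ d := by exact_mod_cast h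
      have := Nat.pow_right_injective hq h1
      have := Finset.mem_range.1 hi
      omega
    rw [e1, mul_pow] at hw
    have h1 : w ∈ LinearMap.ker (aeval L (Qp K q d ^ N * (X - C ((q : K) ^ d)) ^ N)) := hw
    rw [← Polynomial.sup_ker_aeval_eq_ker_aeval_mul_of_coprime L hcop] at h1
    obtain ⟨a, ha, b, hb, rfl⟩ := Submodule.mem_sup.1 h1
    refine S.add_mem (ih a ha) (hS d N b ?_)
    have hb' : aeval L ((X - C ((q : K) ^ d)) ^ N) b = 0 := hb
    rw [map_pow, map_sub, aeval_X, aeval_C] at hb'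
    rw [← hb', Algebra.algebraMap_eq_smul_one]

/-- The operator `L` satisfies a polynomial equation with coefficients in `Λ`. -/
def AlgebraicOver (Λ : Type*) [Field Λ] [Algebra Λ K] {W : Type*} [AddCommGroup W] [Module K W]
    (L : Module.End K W) : Prop :=
  ∃ p : Λ[X], p ≠ 0 ∧ aeval L (p.map (algebraMap Λ K)) = 0

/-- The operator `L` is killed by a product of factors `L - q ^ i`. -/
def KilledBy {Λ : Type*} [Field Λ] {W : Type*} [AddCommGroup W] [Module Λ W] (q : ℕ)
    (L : Module.End Λ W) : Prop :=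
  ∃ d M : ℕ, aeval L ((Qp Λ q d) ^ M) = 0

/-- `S` contains all `s` killed by a power of `L - q ^ i` for some `i` (`L` acts on the target). -/
def GenLeft {V W : Type*} [AddCommGroup V] [Module K V] [AddCommGroup W] [Module K W] (q : ℕ)
    (L : Module.End K W) (S : Submodule K (V →ₗ[K] W)) : Prop :=
  ∀ (i N : ℕ) (s : V →ₗ[K] W), ((L - (q : K) ^ i • 1) ^ N) ∘ₗ s = 0 → s ∈ S

/-- `S` contains all `s` killed by a power of `L - q ^ i` for some `i` (`L` acts on the source). -/
def GenRight {V W : Type*} [AddCommGroup V] [Module K V] [AddCommGroup W] [Module K W] (q : ℕ)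
    (L : Module.End K V) (S : Submodule K (V →ₗ[K] W)) : Prop :=
  ∀ (i N : ℕ) (s : V →ₗ[K] W), s ∘ₗ ((L - (q : K) ^ i • 1) ^ N) = 0 → s ∈ S

/-- The composition with `φ` on the left. -/
noncomputable def postc (H₁ : Type*) {H : Type*} [AddCommGroup H₁] [Module K H₁] [AddCommGroup H]
    [Module K H] (φ : Module.End K H) : Module.End K (H₁ →ₗ[K] H) :=
  LinearMap.llcomp K H₁ H H φ

/-- The composition with `φ` on the right. -/
noncomputable def prec (H₁ : Type*) {H : Type*} [AddCommGroup H₁] [Module K H₁] [AddCommGroup H]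
    [Module K H] (φ : Module.End K H) : Module.End K (H →ₗ[K] H₁) :=
  LinearMap.lcomp K H₁ φ

variable {H₁ H : Type*} [AddCommGroup H₁] [Module K H₁] [AddCommGroup H] [Module K H]

lemma postc_pow (φ : Module.End K H) (n : ℕ) (s : H₁ →ₗ[K] H) :
    (postc H₁ φ ^ n) s = (φ ^ n) ∘ₗ s := by
  induction n generalizing s with
  | zero => rfl
  | succ n ih =>
    rw [pow_succ, Module.End.mul_apply, ih, pow_succ]
    rfl

lemma prec_pow (φ : Module.End K H) (n : ℕ) (s : H →ₗ[K] H₁) :
    (prec H₁ φ ^ n) s = s ∘ₗ (φ ^ n) := by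
  induction n generalizing s with
  | zero => rfl
  | succ n ih =>
    rw [pow_succ, Module.End.mul_apply, ih, pow_succ']
    rfl

lemma postc_aeval (φ : Module.End K H) (p : K[X]) (s : H₁ →ₗ[K] H) :
    aeval (postc H₁ φ) p s = (aeval φ p) ∘ₗ s := by
  induction p using Polynomial.induction_on' with
  | add p r hp hr => rw [map_add, LinearMap.add_apply, hp, hr, map_add, LinearMap.add_comp]
  | monomial n a =>
    rw [aeval_monomial, aeval_monomial, Algebra.algebraMap_eq_smul_one,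
      Algebra.algebraMap_eq_smul_one, smul_mul_assoc, smul_mul_assoc, one_mul, one_mul,
      LinearMap.smul_apply, postc_pow, LinearMap.smul_comp]

lemma prec_aeval (φ : Module.End K H) (p : K[X]) (s : H →ₗ[K] H₁) :
    aeval (prec H₁ φ) p s = s ∘ₗ (aeval φ p) := by
  induction p using Polynomial.induction_on' with
  | add p r hp hr => rw [map_add, LinearMap.add_apply, hp, hr, map_add, LinearMap.comp_add]
  | monomial n a =>
    rw [aeval_monomial, aeval_monomial, Algebra.algebraMap_eq_smul_one,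
      Algebra.algebraMap_eq_smul_one, smul_mul_assoc, smul_mul_assoc, one_mul, one_mul,
      LinearMap.smul_apply, prec_pow, LinearMap.comp_smul]

end lin

variable {C : Type u} [Category.{v} C] [Preadditive C] [MonoidalCategory C]
  [MonoidalPreadditive C] [SymmetricCategory C] [RightRigidCategory C]
  {Λ : Type t} [Field Λ] [CharZero Λ] [Linear Λ C] [MonoidalLinear Λ C]
  {K : Type w} [Field K] [IsAlgClosed K] [Algebra Λ K] {R : SuperRealisation C K}

/-- Dual systems of morphisms from and to the unit object. -/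
theorem exists_dual (hR : IsReal Λ R) (Y : C) :
    ∃ (α : Fin (numRank Λ Y) → (𝟙_ C ⟶ Y)) (β : Fin (numRank Λ Y) → (Y ⟶ 𝟙_ C)),
      (∀ i j, α i ≫ β j = if i = j then 𝟙 (𝟙_ C) else 0) ∧
        ∀ γ : 𝟙_ C ⟶ Y, NumTriv (γ - ∑ i, (γ ≫ β i) ≫ α i) := by
  classical
  have h1ne : (𝟙 (𝟙_ C) : 𝟙_ C ⟶ 𝟙_ C) ≠ 0 := E1aux.id_ne_zero R
  let e : Λ →ₗ[Λ] (𝟙_ C ⟶ 𝟙_ C) := LinearMap.toSpanSingleton Λ _ (𝟙 (𝟙_ C))
  have he : Function.Bijective e := by
    constructor
    · intro a b hab
      have h2 : (a - b) • 𝟙 (𝟙_ C) = 0 := by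
        rw [sub_smul, sub_eq_zero]
        exact hab
      rcases smul_eq_zero.1 h2 with h | h
      · exact sub_eq_zero.1 h
      · exact absurd h h1ne
    · intro f
      obtain ⟨c, hc⟩ := hR.unit f
      exact ⟨c, hc.symm⟩
  let E := LinearEquiv.ofBijective e he
  have hE : ∀ f : 𝟙_ C ⟶ 𝟙_ C, f = E.symm f • 𝟙 (𝟙_ C) := fun f =>
    (E.apply_symm_apply f).symm
  set V := (𝟙_ C ⟶ Y) ⧸ numIdeal Λ (𝟙_ C) Y with hV
  have hfin : Module.Finite Λ V := finite_num hR (𝟙_ C) Y
  have hzero : ∀ (α : 𝟙_ C ⟶ Y) (β : Y ⟶ 𝟙_ C), α ∈ numIdeal Λ (𝟙_ C) Y → α ≫ β = 0 :=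
    fun α β hα => (numTriv_unit_iff hR α).1 hα β
  let B0 : (Y ⟶ 𝟙_ C) →ₗ[Λ] (V →ₗ[Λ] Λ) :=
    { toFun := fun β => (numIdeal Λ (𝟙_ C) Y).liftQ
        (E.symm.toLinearMap ∘ₗ Linear.rightComp Λ (𝟙_ C) β) (by
          intro α hα
          rw [LinearMap.mem_ker]
          change E.symm (α ≫ β) = 0
          rw [hzero α β hα, map_zero])
      map_add' := fun β γ => by
        apply Submodule.linearMap_qext
        ext α
        change E.symm (α ≫ (β + γ)) = E.symm (α ≫ β) + E.symm (α ≫ γ)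
        rw [Preadditive.comp_add, map_add]
      map_smul' := fun c β => by
        apply Submodule.linearMap_qext
        ext α
        change E.symm (α ≫ (c • β)) = c • E.symm (α ≫ β)
        rw [Linear.comp_smul, map_smul] }
  have hB0 : ∀ (α : 𝟙_ C ⟶ Y) (β : Y ⟶ 𝟙_ C),
      α ≫ β = (B0 β (Submodule.Quotient.mk α)) • 𝟙 (𝟙_ C) := fun α β => hE _
  have hsurj : LinearMap.range B0 = ⊤ := by
    have h2 : (LinearMap.range B0 : Subspace Λ (Module.Dual Λ V)).dualCoannihilator = ⊥ := by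
      rw [eq_bot_iff]
      intro v hv
      obtain ⟨α, rfl⟩ := Submodule.Quotient.mk_surjective _ v
      rw [Submodule.mem_bot, Submodule.Quotient.mk_eq_zero, mem_numIdeal, numTriv_unit_iff hR]
      intro β
      rw [hB0]
      have h3 := (Submodule.mem_dualCoannihilator _).1 hv (B0 β) ⟨β, rfl⟩
      rw [h3, zero_smul]
    have h3 := Subspace.dualCoannihilator_dualAnnihilator_eq
      (W := (LinearMap.range B0 : Subspace Λ (Module.Dual Λ V)))
    rw [h2, Submodule.dualAnnihilator_bot] at h3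
    exact h3.symm
  let b : Basis (Fin (numRank Λ Y)) Λ V := Module.finBasisOfFinrankEq Λ V rfl
  have hα : ∀ i, ∃ α : 𝟙_ C ⟶ Y, (Submodule.Quotient.mk α : V) = b i := fun i =>
    Submodule.Quotient.mk_surjective _ (b i)
  have hβ : ∀ j, ∃ β : Y ⟶ 𝟙_ C, B0 β = b.coord j := fun j => by
    have : b.coord j ∈ LinearMap.range B0 := by rw [hsurj]; trivial
    exact this
  choose α hα using hα
  choose β hβ using hβ
  refine ⟨α, β, fun i j => ?_, fun γ => ?_⟩
  · rw [hB0, hα, hβ, Basis.coord_apply, Basis.repr_self, Finsupp.single_apply]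
    split_ifs
    · rw [one_smul]
    · rw [zero_smul]
  · have h5 : (Submodule.Quotient.mk (γ - ∑ i, (γ ≫ β i) ≫ α i) : V) = 0 := by
      have h6 : ∀ i, (γ ≫ β i) ≫ α i = b.coord i (Submodule.Quotient.mk γ) • α i := fun i => by
        rw [hB0, hβ, Linear.smul_comp, Category.id_comp]
      rw [Submodule.Quotient.mk_sub, sub_eq_zero]
      have h7 : (Submodule.Quotient.mk (∑ i, (γ ≫ β i) ≫ α i) : V) =
          ∑ i, (Submodule.Quotient.mk ((γ ≫ β i) ≫ α i) : V) :=
        map_sum (Submodule.mkQ (numIdeal Λ (𝟙_ C) Y)) _ _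
      rw [h7]
      conv_lhs => rw [← b.sum_repr (Submodule.Quotient.mk γ)]
      refine Finset.sum_congr rfl fun i _ => ?_
      rw [h6, Submodule.Quotient.mk_smul, hα, Basis.coord_apply]
    exact (Submodule.Quotient.mk_eq_zero _).1 h5

/-- The action of a correspondence on the cohomology. -/
def actH (R : SuperRealisation C K) {Y : C} (g : Y ⟶ Y) : Module.End K (R.H.obj Y) :=
  (R.H.map g).hom

/-- The Frobenius endomorphism of `Y` satisfies a polynomial with coefficients in `Λ` (Weil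
conjectures), and the Tate conjecture with semisimplicity: each element of the cohomology which is
killed by a power of `Fr - q ^ i` is a combination of classes of cycles (`CK` are the combinations of
the classes), and the same for functionals. -/
structure IsTateSS (Λ : Type t) [Field Λ] [Linear Λ C] [Algebra Λ K] (R : SuperRealisation C K)
    (q : ℕ) {Y : C} (Fr : Y ⟶ Y) : Prop where
  weil : AlgebraicOver Λ (actH R Fr)
  classes : GenLeft q (actH R Fr) (CK R (𝟙_ C) Y)
  functionals : GenRight q (actH R Fr) (CK R Y (𝟙_ C))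

/-- The operator `Fr` on `F (Y)` is killed by a product of factors `Fr - q ^ i`. -/
def Killed (q : ℕ) (F : C ⥤ ModuleCat.{x} Λ) {Y : C} (Fr : Y ⟶ Y) : Prop :=
  KilledBy q ((F.map Fr).hom : Module.End Λ (F.obj Y))

/-- The Künneth formula: `F (Y)` is the sum of `r` copies of `F (𝟙)`, where `r` is the rank of the
group of cycles on `Y` modulo numerical equivalence. -/
def Kunneth (F : C ⥤ ModuleCat.{x} Λ) (Y : C) : Prop :=
  ∃ (α : Fin (numRank Λ Y) → (𝟙_ C ⟶ Y)) (β : Fin (numRank Λ Y) → (Y ⟶ 𝟙_ C)),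
    (∀ i j, α i ≫ β j = if i = j then 𝟙 (𝟙_ C) else 0) ∧
      ∀ v : F.obj Y, v = ∑ i, (F.map (β i ≫ α i)).hom v

/-- The value of a polynomial at an endomorphism. -/
lemma exists_aeval {Y : C} (Fr : Y ⟶ Y) (P : Λ[X]) :
    ∃ g : Y ⟶ Y, End.of g = aeval (End.of Fr) P := ⟨aeval (End.of Fr) P, rfl⟩

lemma map_aeval_F {Y : C} (Fr g : Y ⟶ Y) (P : Λ[X]) (hg : End.of g = aeval (End.of Fr) P)
    (F : C ⥤ ModuleCat.{x} Λ) [F.Additive] [F.Linear Λ] :
    (F.map g).hom = aeval ((F.map Fr).hom : Module.End Λ (F.obj Y)) P := by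
  have h1 : (F.map g).hom = Pool.Agent.N712.AF.act F (End.of g) := rfl
  rw [h1, hg, ← Polynomial.aeval_algHom_apply]
  rfl

lemma map_aeval_R (hR : IsReal Λ R) {Y : C} (Fr g : Y ⟶ Y) (P : Λ[X])
    (hg : End.of g = aeval (End.of Fr) P) :
    ((R.H.map g).hom : Module.End K (R.H.obj Y)) =
      aeval ((R.H.map Fr).hom : Module.End K (R.H.obj Y)) (P.map (algebraMap Λ K)) := by
  have key : ∀ P : Λ[X], ((R.H.map (aeval (End.of Fr) P : End Y)).hom :
      Module.End K (R.H.obj Y)) = aeval ((R.H.map Fr).hom : Module.End K (R.H.obj Y))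
        (P.map (algebraMap Λ K)) := by
    intro P
    induction P using Polynomial.induction_on' with
    | add p r hp hr =>
      rw [map_add, Polynomial.map_add, map_add, ← hp, ← hr]
      change (R.H.map ((aeval (End.of Fr) p : Y ⟶ Y) + (aeval (End.of Fr) r : Y ⟶ Y))).hom = _
      rw [R.H.map_add]
      rfl
    | monomial n a =>
      rw [aeval_monomial, Polynomial.map_monomial, aeval_monomial, Algebra.algebraMap_eq_smul_one,
        Algebra.algebraMap_eq_smul_one, smul_mul_assoc, smul_mul_assoc, one_mul, one_mul]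
      have h1 : ∀ n : ℕ, ((R.H.map ((End.of Fr) ^ n : End Y)).hom : Module.End K (R.H.obj Y)) =
          ((R.H.map Fr).hom : Module.End K (R.H.obj Y)) ^ n := by
        intro n
        induction n with
        | zero =>
          rw [pow_zero, pow_zero]
          change (R.H.map (𝟙 Y)).hom = _
          rw [R.H.map_id]
          rfl
        | succ n ih =>
          rw [pow_succ, pow_succ, ← ih]
          change (R.H.map (Fr ≫ ((End.of Fr) ^ n : End Y))).hom = _
          rw [R.H.map_comp]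
          rfl
      rw [← h1]
      change (R.H.map (a • (((End.of Fr) ^ n : End Y) : Y ⟶ Y))).hom = _
      rw [hR.lin]
      rfl
  rw [← key, ← hg]

/-- **The dichotomy.** -/
theorem dichotomy (hR : IsReal Λ R) {Y : C} (hY : R.CPlus Y) {q : ℕ} (hq : 1 < q) (Fr : Y ⟶ Y)
    (hT : IsTateSS Λ R q Fr) (hc : Killed q (homF Λ (𝟙_ C)) Fr)
    (F : C ⥤ ModuleCat.{x} Λ) [F.Additive] [F.Linear Λ] (hF : Killed q F Fr) :
    Kunneth F Y ∨ ∀ N : ℕ, (((bt R Y + 1) ^ (2 * N) : ℕ) : ℕ∞) ≤
      ((N + 1) ^ (bt R Y ^ 2 + 1) : ℕ) * dimE Λ (F.obj (tp (Y ⊗ Yᘁ) N ⊗ Y)) := by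
  have : CharZero K := charZero_of_injective_algebraMap (algebraMap Λ K).injective
  obtain ⟨p, hp0, hp⟩ := hT.weil
  obtain ⟨dF, mF, hFk⟩ := hF
  obtain ⟨dC, mC, hCk⟩ := hc
  set D := max dF dC with hD
  obtain ⟨p₂, M₁, hdvd, hcop⟩ := exists_coprime_part (Qp Λ q D) _ p hp0 le_rfl
  set M := max M₁ (max mF mC) with hM
  obtain ⟨a, b, hab⟩ : IsCoprime p₂ ((Qp Λ q D) ^ M) := hcop.pow_right
  set P := a * p₂ with hP
  have hP1 : P = 1 - b * (Qp Λ q D) ^ M := by rw [← hab]; ring
  obtain ⟨g, hg⟩ := exists_aeval (Λ := Λ) Fr P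
  -- `g` acts as the identity on `F (Y)` and on cycles
  have hone : ∀ (L : Type x) [AddCommGroup L] [Module Λ L] (T : Module.End Λ L) (d m : ℕ), d ≤ D →
      m ≤ M → aeval T ((Qp Λ q d) ^ m) = 0 → aeval T P = 1 := by
    intro L _ _ T d m h1 h2 h3
    have h4 : (Qp Λ q d) ^ m ∣ (Qp Λ q D) ^ M :=
      (pow_dvd_pow_of_dvd (Qp_dvd Λ q h1) m).trans (pow_dvd_pow _ h2)
    obtain ⟨s, hs⟩ := h4
    rw [hP1, hs, map_sub, map_one, map_mul, map_mul, h3, zero_mul, mul_zero, sub_zero]
  have hone' : ∀ (L : Type v) [AddCommGroup L] [Module Λ L] (T : Module.End Λ L) (d m : ℕ),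
      d ≤ D → m ≤ M → aeval T ((Qp Λ q d) ^ m) = 0 → aeval T P = 1 := by
    intro L _ _ T d m h1 h2 h3
    have h4 : (Qp Λ q d) ^ m ∣ (Qp Λ q D) ^ M :=
      (pow_dvd_pow_of_dvd (Qp_dvd Λ q h1) m).trans (pow_dvd_pow _ h2)
    obtain ⟨s, hs⟩ := h4
    rw [hP1, hs, map_sub, map_one, map_mul, map_mul, h3, zero_mul, mul_zero, sub_zero]
  have hFg : (F.map g).hom = (1 : Module.End Λ (F.obj Y)) := by
    rw [map_aeval_F Fr g P hg F]
    exact hone _ _ dF mF (le_max_left _ _) (by omega) hFk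
  have hCg : ∀ γ : 𝟙_ C ⟶ Y, γ ≫ g = γ := by
    intro γ
    have h1 := map_aeval_F Fr g P hg (homF Λ (𝟙_ C))
    rw [hone' _ _ dC mC (le_max_right _ _) (by omega) hCk] at h1
    exact LinearMap.congr_fun h1 γ
  -- the realisation of `g`
  set φ : Module.End K (R.H.obj Y) := (R.H.map Fr).hom with hφ
  have hRg := map_aeval_R hR Fr g P hg
  have hp' : aeval φ (p.map (algebraMap Λ K)) = 0 := hp
  have hkill : aeval φ ((Qp K q D) ^ M₁ * P.map (algebraMap Λ K)) = 0 := by
    obtain ⟨s, hs⟩ := hdvd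
    have h1 : (Qp K q D) ^ M₁ * P.map (algebraMap Λ K) =
        (a.map (algebraMap Λ K) * s.map (algebraMap Λ K)) * p.map (algebraMap Λ K) := by
      have h2 := congrArg (Polynomial.map (algebraMap Λ K)) hs
      rw [Polynomial.map_mul, Polynomial.map_pow, Qp_map, Polynomial.map_mul] at h2
      rw [hP, Polynomial.map_mul]
      calc (Qp K q D) ^ M₁ * (a.map (algebraMap Λ K) * p₂.map (algebraMap Λ K))
          = a.map (algebraMap Λ K) * ((Qp K q D) ^ M₁ * p₂.map (algebraMap Λ K)) := by ring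
        _ = _ := by rw [h2]; ring
    rw [h1, map_mul, hp', mul_zero]
  -- classes
  have hcl : ∀ s : R.H.obj (𝟙_ C) →ₗ[K] R.H.obj Y, (R.H.map g).hom ∘ₗ s ∈ CK R (𝟙_ C) Y := by
    intro s
    refine mem_of_killed (postc (R.H.obj (𝟙_ C)) φ) (CK R (𝟙_ C) Y) hq (fun i N w hw => ?_) D M₁ _ ?_
    · refine hT.classes i N w ?_
      have h1 : postc (R.H.obj (𝟙_ C)) φ - (q : K) ^ i • 1 =
          postc (R.H.obj (𝟙_ C)) (φ - (q : K) ^ i • 1) := by
        ext w v
        simp [postc]
      rw [h1, postc_pow] at hw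
      exact hw
    · rw [postc_aeval, ← LinearMap.comp_assoc]
      have h1 : (aeval φ ((Qp K q D) ^ M₁)) ∘ₗ (R.H.map g).hom = 0 := by
        rw [hRg, ← Module.End.mul_eq_comp, ← map_mul, hkill]
      rw [h1, LinearMap.zero_comp]
  -- functionals
  have hfn : ∀ s : R.H.obj Y →ₗ[K] R.H.obj (𝟙_ C), s ∘ₗ (R.H.map g).hom ∈ CK R Y (𝟙_ C) := by
    intro s
    refine mem_of_killed (prec (R.H.obj (𝟙_ C)) φ) (CK R Y (𝟙_ C)) hq (fun i N w hw => ?_) D M₁ _ ?_
    · refine hT.functionals i N w ?_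
      have h1 : prec (R.H.obj (𝟙_ C)) φ - (q : K) ^ i • 1 =
          prec (R.H.obj (𝟙_ C)) (φ - (q : K) ^ i • 1) := by
        ext w v
        simp [prec]
      rw [h1, prec_pow] at hw
      exact hw
    · rw [prec_aeval, LinearMap.comp_assoc]
      have h1 : (R.H.map g).hom ∘ₗ (aeval φ ((Qp K q D) ^ M₁)) = 0 := by
        rw [hRg, ← Module.End.mul_eq_comp, ← map_mul, mul_comm, hkill]
      rw [h1, LinearMap.comp_zero]
  -- numerically trivial cycles are homologically trivial
  have hnum : ∀ δ : 𝟙_ C ⟶ Y, NumTriv δ → R.H.map δ = 0 := by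
    intro δ hδ
    have h0 := (numTriv_unit_iff hR δ).1 hδ
    have h1 : ∀ s ∈ CK R Y (𝟙_ C), s ∘ₗ (R.H.map δ).hom = 0 := by
      intro s hs
      unfold CK at hs
      induction hs using Submodule.span_induction with
      | mem s hs =>
        obtain ⟨β, rfl⟩ := hs
        have h2 : (R.H.map (δ ≫ β)).hom = (R.H.map (0 : 𝟙_ C ⟶ 𝟙_ C)).hom := by rw [h0 β]
        rw [R.H.map_comp, R.H.map_zero] at h2
        exact h2
      | zero => exact LinearMap.zero_comp _
      | add s t _ _ hs ht => rw [LinearMap.add_comp, hs, ht, add_zero]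
      | smul c s _ hs => rw [LinearMap.smul_comp, hs, smul_zero]
    by_contra hne
    obtain ⟨v, hv⟩ : ∃ v, (R.H.map δ).hom v ≠ 0 := by
      by_contra hcon
      push Not at hcon
      apply hne
      ext v
      exact hcon v
    obtain ⟨ℓ, hℓ⟩ : ∃ ℓ : Module.Dual K (R.H.obj Y), ℓ ((R.H.map δ).hom v) ≠ 0 := by
      by_contra hcon
      push Not at hcon
      exact hv ((Module.forall_dual_apply_eq_zero_iff K _).1 hcon)
    have hv0 : v ≠ 0 := fun h => hv (by rw [h, map_zero])
    have h2 := h1 _ (hfn ((LinearMap.toSpanSingleton K _ v) ∘ₗ ℓ))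
    have h3 : (R.H.map g).hom ∘ₗ (R.H.map δ).hom = (R.H.map δ).hom := by
      have h4 : (R.H.map (δ ≫ g)).hom = (R.H.map δ).hom := by rw [hCg δ]
      rw [R.H.map_comp] at h4
      exact h4
    rw [LinearMap.comp_assoc, h3] at h2
    have h5 := LinearMap.congr_fun h2 v
    have h6 : ℓ ((R.H.map δ).hom v) • v = 0 := h5
    rcases smul_eq_zero.1 h6 with h | h
    · exact hℓ h
    · exact hv0 h
  obtain ⟨α, β, hαβ, hexp⟩ := exists_dual hR Y (Λ := Λ)
  set e : Y ⟶ Y := ∑ i, β i ≫ α i with he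
  have hee : e ≫ e = e := by
    rw [he, Preadditive.sum_comp]
    refine Finset.sum_congr rfl fun i _ => ?_
    rw [Preadditive.comp_sum]
    have h1 : ∀ j, (β i ≫ α i) ≫ β j ≫ α j = if i = j then β i ≫ α i else 0 := by
      intro j
      have h2 : (β i ≫ α i) ≫ β j ≫ α j = β i ≫ (α i ≫ β j) ≫ α j := by
        simp only [Category.assoc]
      rw [h2, hαβ]
      split_ifs with h
      · rw [h, Category.id_comp]
      · rw [Limits.zero_comp, Limits.comp_zero]
    rw [Finset.sum_congr rfl fun j _ => h1 j, Finset.sum_ite_eq]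
    simp
  have hRe : ∀ c ∈ CK R (𝟙_ C) Y, (R.H.map e).hom ∘ₗ c = c := by
    intro c hc
    unfold CK at hc
    induction hc using Submodule.span_induction with
    | mem c hc =>
      obtain ⟨γ, rfl⟩ := hc
      have h1 := hnum _ (hexp γ)
      have h2 : ∑ i, (γ ≫ β i) ≫ α i = γ ≫ e := by
        rw [he, Preadditive.comp_sum]
        refine Finset.sum_congr rfl fun i _ => ?_
        rw [Category.assoc]
      rw [h2, R.H.map_sub, sub_eq_zero, R.H.map_comp] at h1
      have h3 := congrArg (fun m => ModuleCat.Hom.hom m) h1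
      exact h3.symm
    | zero => exact LinearMap.comp_zero _
    | add s t _ _ hs ht => rw [LinearMap.comp_add, hs, ht]
    | smul c s _ hs => rw [LinearMap.comp_smul, hs]
  obtain ⟨x1, ℓ1, hℓ1⟩ : ∃ (x1 : R.H.obj (𝟙_ C)) (ℓ1 : Module.Dual K (R.H.obj (𝟙_ C))),
      ℓ1 x1 = 1 := by
    have h4 : finrank K (R.H.obj (𝟙_ C)) = 1 := bt_unit R
    have h5 : 0 < finrank K (R.H.obj (𝟙_ C)) := by omega
    have h6 : Module.Finite K (R.H.obj (𝟙_ C)) := R.finite _
    obtain ⟨x, hx⟩ := Module.finrank_pos_iff_exists_ne_zero.1 h5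
    obtain ⟨ℓ, hℓ⟩ : ∃ ℓ : Module.Dual K (R.H.obj (𝟙_ C)), ℓ x ≠ 0 := by
      by_contra hcon
      push Not at hcon
      exact hx ((Module.forall_dual_apply_eq_zero_iff K _).1 hcon)
    exact ⟨x, (ℓ x)⁻¹ • ℓ, by
      rw [LinearMap.smul_apply, smul_eq_mul, inv_mul_cancel₀ hℓ]⟩
  have hRy : R.H.map (g - g ≫ e) = 0 := by
    rw [R.H.map_sub, sub_eq_zero, R.H.map_comp]
    ext w
    have h1 := LinearMap.congr_fun (hRe _ (hcl ((LinearMap.toSpanSingleton K _ w) ∘ₗ ℓ1))) x1
    have h2 : ((R.H.map g).hom ∘ₗ ((LinearMap.toSpanSingleton K _ w) ∘ₗ ℓ1)) x1 =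
        (R.H.map g).hom w := by
      change (R.H.map g).hom (ℓ1 x1 • w) = _
      rw [hℓ1, one_smul]
    rw [LinearMap.comp_apply, h2] at h1
    exact h1.symm
  have hny : NumTriv (g - g ≫ e) := numTriv_of_map hR hRy
  have hFy : (F.map (g - g ≫ e)).hom = (1 : Module.End Λ (F.obj Y)) - (F.map e).hom := by
    rw [F.map_sub, F.map_comp, ModuleCat.hom_sub, ModuleCat.hom_comp, hFg]
    rfl
  have hFe : IsIdempotentElem ((F.map e).hom : Module.End Λ (F.obj Y)) := by
    have h1 := congrArg (fun m => (F.map m).hom) hee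
    simp only [F.map_comp] at h1
    exact h1
  by_cases hnil : IsNilpotent ((F.map (g - g ≫ e)).hom : Module.End Λ (F.obj Y))
  · left
    refine ⟨α, β, hαβ, fun v => ?_⟩
    obtain ⟨n, hn⟩ := hnil
    have h1 : ((F.map (g - g ≫ e)).hom : Module.End Λ (F.obj Y)) = 0 := by
      have h2 : IsIdempotentElem ((F.map (g - g ≫ e)).hom : Module.End Λ (F.obj Y)) := by
        rw [hFy]
        exact hFe.one_sub
      have h3 := h2.pow_succ_eq n
      rw [pow_succ, hn, zero_mul] at h3
      exact h3.symm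
    rw [hFy, sub_eq_zero] at h1
    have h2 := LinearMap.congr_fun h1 v
    rw [he, F.map_sum, ModuleCat.hom_sum, LinearMap.sum_apply] at h2
    exact h2
  · right
    exact fun N => exp_gap hR hY hny F hnil N

end Pool.Agent.T9h41.XG
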