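import Pool.Agent.T9h41.XG.Words

/-!
# Ranks of words of endomorphisms
-/

set_option autoImplicit false
set_option linter.unusedSectionVars false

open CategoryTheory Limits MonoidalCategory Module Polynomial
open Pool.Agent.Y112.SR Pool.Agent.Y112.KD Pool.Agent.N64.AF
open Pool.Agent.Y116.MT (tr)

namespace Pool.Agent.T9h41.XG

universe v u w t x

variable {C : Type u} [Category.{v} C] [Preadditive C] [MonoidalCategory C]
  [MonoidalPreadditive C] [SymmetricCategory C] [RightRigidCategory C]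
  {Λ : Type t} [Field Λ] [CharZero Λ] [Linear Λ C] [MonoidalLinear Λ C]
  {K : Type w} [Field K] [Algebra Λ K] {R : SuperRealisation C K}

/-- The functor `Y ↦ (Y ⊗ P) ⊗ ⋯ ⊗ P`. -/
def wF (P : C) : ℕ → (C ⥤ C)
  | 0 => 𝟭 C
  | k + 1 => tensorRight P ⋙ wF P k

instance wF_additive (P : C) : ∀ k, (wF P k).Additive
  | 0 => inferInstanceAs (𝟭 C).Additive
  | k + 1 => by
    have := wF_additive P k
    exact inferInstanceAs (tensorRight P ⋙ wF P k).Additive

instance wF_linear (P : C) : ∀ k, (wF P k).Linear Λ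
  | 0 => inferInstanceAs ((𝟭 C).Linear Λ)
  | k + 1 => by
    have := wF_linear P k
    exact inferInstanceAs ((tensorRight P ⋙ wF P k).Linear Λ)

lemma wF_tp (P : C) : ∀ k n : ℕ, (wF P k).obj (tp P n) = tp P (n + k)
  | 0, _ => rfl
  | k + 1, n => by
    have h1 : n + (k + 1) = n + 1 + k := by omega
    rw [h1, ← wF_tp P k (n + 1)]
    rfl

lemma finite_wF (F : C ⥤ ModuleCat.{x} Λ) (P : C) {N : ℕ} (h : Module.Finite Λ (F.obj (tp P N)))
    {k n : ℕ} (hk : n + k = N) : Module.Finite Λ (F.obj ((wF P k).obj (tp P n))) := by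
  rw [wF_tp, hk]
  exact h

/-- All the operators of `h` in the slots of `F (P ^ j)` are zero. -/
def SlotZero (F : C ⥤ ModuleCat.{x} Λ) {P : C} (h : P ⟶ P) (j : ℕ) : Prop :=
  ∀ n k, n + 1 + k = j → F.map ((wF P k).map (tp P n ◁ h)) = 0

lemma pw_sub {P : C} (a b : P ⟶ P) (n : ℕ) :
    pw a (n + 1) - pw b (n + 1) = (pw a n ⊗ₘ (a - b)) + ((pw a n - pw b n) ⊗ₘ b) := by
  change (pw a n ⊗ₘ a) - (pw b n ⊗ₘ b) = _
  simp only [MonoidalCategory.tensorHom_def, Pool.Agent.N591.AF.sub_wR,
    Pool.Agent.N591.AF.sub_wL, Preadditive.comp_sub, Preadditive.sub_comp]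
  abel

/-- If `a - b` is zero in all the slots then the tensor powers of `a` and `b` have the same image. -/
lemma map_pw_zero (F : C ⥤ ModuleCat.{x} Λ) [F.Additive] {P : C} {a b : P ⟶ P} {j : ℕ}
    (h : SlotZero F (a - b) j) : ∀ n k : ℕ, n + k = j →
      F.map ((wF P k).map (pw a n - pw b n)) = 0
  | 0, k, _ => by
    change F.map ((wF P k).map (𝟙 _ - 𝟙 _)) = 0
    rw [sub_self, Functor.map_zero, Functor.map_zero]
  | n + 1, k, hj => by
    have ih := map_pw_zero F h n (k + 1) (by omega)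
    have h1 : F.map ((wF P k).map ((pw a n - pw b n) ▷ P)) = 0 := ih
    have h2 := h n k hj
    rw [pw_sub, Functor.map_add, MonoidalCategory.tensorHom_def, MonoidalCategory.tensorHom_def,
      Functor.map_comp, Functor.map_comp, Functor.map_add, Functor.map_comp, Functor.map_comp, h1,
      h2, Limits.comp_zero, Limits.zero_comp, add_zero]

lemma map_pw_eq (F : C ⥤ ModuleCat.{x} Λ) [F.Additive] {P : C} {a b : P ⟶ P} {j : ℕ}
    (h : SlotZero F (a - b) j) : F.map (pw a j) = F.map (pw b j) := by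
  have h1 := map_pw_zero F h j 0 rfl
  have h2 : F.map (pw a j - pw b j) = 0 := h1
  rwa [Functor.map_sub, sub_eq_zero] at h2

lemma numTriv_tensor (hR : IsReal Λ R) {P Q : C} {e : P ⟶ P} {f : Q ⟶ Q}
    (he : NumTriv (e - 𝟙 P)) (hf : NumTriv (f - 𝟙 Q)) : NumTriv ((e ⊗ₘ f) - 𝟙 (P ⊗ Q)) := by
  have h1 : (e ⊗ₘ f) - 𝟙 (P ⊗ Q) = (e - 𝟙 _) ▷ Q ≫ (P ◁ f) + 𝟙 _ ≫ (P ◁ (f - 𝟙 Q)) := by
    rw [MonoidalCategory.tensorHom_def, Pool.Agent.N591.AF.sub_wR, Pool.Agent.N591.AF.sub_wL,
      Preadditive.sub_comp, id_whiskerRight, Category.id_comp, Category.id_comp, whiskerLeft_id]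
    abel
  rw [h1]
  refine (numIdeal Λ _ _).add_mem ?_ ?_
  · have := NumTriv.comp hR (he.whiskerRight hR Q) (𝟙 _) (P ◁ f)
    rw [Category.id_comp] at this
    exact this
  · rw [Category.id_comp]
    exact hf.whiskerLeft hR _

lemma numTriv_pw (hR : IsReal Λ R) {P : C} {e : P ⟶ P} (he : NumTriv (e - 𝟙 P)) :
    ∀ n : ℕ, NumTriv (pw e n - 𝟙 (tp P n))
  | 0 => by
    change NumTriv (𝟙 _ - 𝟙 _)
    rw [sub_self]
    exact (numIdeal Λ _ _).zero_mem
  | n + 1 => numTriv_tensor hR (numTriv_pw hR he n) he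

/-- The rank of `E ⊗ G` is at least the numerical rank of the first factor, if `E` is the identity
modulo numerically trivial endomorphisms and `G` does not act as zero. -/
theorem base (hR : IsReal Λ R) (F : C ⥤ ModuleCat.{x} Λ) [F.Additive] [F.Linear Λ] {Q P : C}
    {E : Q ⟶ Q} {G : P ⟶ P} (hE : NumTriv (E - 𝟙 Q)) (hG : F.map G ≠ 0)
    [Module.Finite Λ (F.obj (Q ⊗ P))] :
    numRank Λ Q ≤ finrank Λ (LinearMap.range (F.map (E ⊗ₘ G)).hom) := by
  obtain ⟨z, hz⟩ : ∃ z : F.obj P, (F.map G).hom z ≠ 0 := by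
    by_contra hcon
    push Not at hcon
    apply hG
    ext z
    exact hcon z
  let Θ : (𝟙_ C ⟶ Q) →ₗ[Λ] F.obj (Q ⊗ P) :=
    { toFun := fun α => (F.map ((λ_ P).inv ≫ (α ▷ P) ≫ (E ⊗ₘ G))).hom z
      map_add' := fun α β => by
        rw [MonoidalPreadditive.add_whiskerRight, Preadditive.add_comp, Preadditive.comp_add,
          F.map_add]
        rfl
      map_smul' := fun c α => by
        rw [MonoidalLinear.smul_whiskerRight, Linear.smul_comp, Linear.comp_smul, F.map_smul]
        rfl }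
  have hΘr : LinearMap.range Θ ≤ LinearMap.range (F.map (E ⊗ₘ G)).hom := by
    rintro _ ⟨α, rfl⟩
    refine ⟨(F.map ((λ_ P).inv ≫ (α ▷ P))).hom z, ?_⟩
    change (F.map (E ⊗ₘ G)).hom ((F.map ((λ_ P).inv ≫ (α ▷ P))).hom z) =
      (F.map ((λ_ P).inv ≫ (α ▷ P) ≫ (E ⊗ₘ G))).hom z
    rw [← Category.assoc, F.map_comp (_ ≫ _)]
    rfl
  have hker : LinearMap.ker Θ ≤ numIdeal Λ (𝟙_ C) Q := by
    intro α hα
    have h0 : (F.map ((λ_ P).inv ≫ (α ▷ P) ≫ (E ⊗ₘ G))).hom z = 0 := hα
    rw [mem_numIdeal, numTriv_unit_iff hR]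
    intro β
    have h1 : NumTriv (α ≫ (E - 𝟙 Q)) := by
      have := NumTriv.comp hR hE α (𝟙 Q)
      rwa [Category.comp_id] at this
    have h2 : α ≫ β = α ≫ E ≫ β := by
      have h3 := (numTriv_unit_iff hR _).1 h1 β
      rw [Preadditive.comp_sub, Preadditive.sub_comp, Category.comp_id, sub_eq_zero] at h3
      rw [← h3, Category.assoc]
    obtain ⟨q, hq⟩ := hR.unit (α ≫ β)
    have h4 : ((λ_ P).inv ≫ (α ▷ P) ≫ (E ⊗ₘ G)) ≫ (β ▷ P) ≫ (λ_ P).hom = q • G := by
      rw [MonoidalCategory.tensorHom_def]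
      simp only [Category.assoc]
      rw [whisker_exchange_assoc, ← comp_whiskerRight_assoc, ← comp_whiskerRight_assoc,
        Category.assoc, ← h2, hq, MonoidalLinear.smul_whiskerRight, id_whiskerRight,
        Linear.smul_comp, Linear.comp_smul, Category.id_comp, leftUnitor_naturality,
        Iso.inv_hom_id_assoc]
    have h5 : (F.map (q • G)).hom z = 0 := by
      rw [← h4, F.map_comp]
      change (F.map _).hom ((F.map ((λ_ P).inv ≫ (α ▷ P) ≫ (E ⊗ₘ G))).hom z) = 0
      rw [h0, map_zero]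
    rw [F.map_smul] at h5
    have h6 : q • (F.map G).hom z = 0 := h5
    rcases smul_eq_zero.1 h6 with h | h
    · rw [hq, h, zero_smul]
    · exact absurd h hz
  have hfr : Module.Finite Λ ((𝟙_ C ⟶ Q) ⧸ LinearMap.ker Θ) :=
    Module.Finite.equiv (LinearMap.quotKerEquivRange Θ).symm
  calc numRank Λ Q ≤ finrank Λ ((𝟙_ C ⟶ Q) ⧸ LinearMap.ker Θ) :=
        LinearMap.finrank_le_finrank_of_surjective (f := Submodule.factor hker)
          (Submodule.factor_surjective hker)
    _ = finrank Λ (LinearMap.range Θ) := (LinearMap.quotKerEquivRange Θ).finrank_eq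
    _ ≤ _ := Submodule.finrank_mono hΘr

/-- The sum over the words of length `k` in front of `l`. -/
def wS (w : List Bool → ℕ) : ℕ → List Bool → ℕ
  | 0, l => w l
  | k + 1, l => wS w k (true :: l) + wS w k (false :: l)

/-- The ranks of words. -/
theorem words_sum (F : C ⥤ ModuleCat.{x} Λ) [F.Additive] {P : C} {f e : P ⟶ P}
    (hfe : e = 𝟙 P - f) (N : ℕ) (hfin : Module.Finite Λ (F.obj (tp P N)))
    (hid : SlotZero F (f ≫ f - f) N) (w : List Bool → ℕ)
    (hw : ∀ l : List Bool, l.length = N →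
      w l ≤ finrank Λ (LinearMap.range (F.map (te f e l)).hom)) :
    ∀ (k : ℕ) (l : List Bool), l.length + k = N →
      wS w k l ≤ finrank Λ (LinearMap.range (F.map ((wF P k).map (te f e l))).hom)
  | 0, l, hl => hw l hl
  | k + 1, l, hl => by
    have i1 := words_sum F hfe N hfin hid w hw k (true :: l) (by
      rw [List.length_cons]; omega)
    have i2 := words_sum F hfe N hfin hid w hw k (false :: l) (by
      rw [List.length_cons]; omega)
    have hV : Module.Finite Λ (F.obj ((wF P k).obj (tp P l.length ⊗ P))) :=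
      finite_wF F P hfin (k := k) (n := l.length + 1) (by omega)
    let A : Module.End Λ (F.obj ((wF P k).obj (tp P l.length ⊗ P))) :=
      (F.map ((wF P k).map (te f e l ▷ P))).hom
    let φ : Module.End Λ (F.obj ((wF P k).obj (tp P l.length ⊗ P))) :=
      (F.map ((wF P k).map (tp P l.length ◁ f))).hom
    have hφ : IsIdempotentElem φ := by
      have h1 := hid l.length k (by omega)
      rw [Pool.Agent.N591.AF.sub_wL, Functor.map_sub, Functor.map_sub, sub_eq_zero,
        MonoidalCategory.whiskerLeft_comp, Functor.map_comp, Functor.map_comp] at h1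
      have := congrArg (fun g => ModuleCat.Hom.hom g) h1
      exact this
    have hc : φ * A = A * φ := by
      have h1 : te f e l ▷ P ≫ tp P l.length ◁ f = tp P l.length ◁ f ≫ te f e l ▷ P :=
        (whisker_exchange _ _).symm
      have h2 := congrArg (fun g => (F.map ((wF P k).map g)).hom) h1
      simp only [Functor.map_comp] at h2
      exact h2
    have e1 : (F.map ((wF P k).map (te f e (true :: l)))).hom = φ * A := by
      change (F.map ((wF P k).map (te f e l ⊗ₘ f))).hom = _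
      rw [MonoidalCategory.tensorHom_def, Functor.map_comp, Functor.map_comp]
      rfl
    have e2 : (F.map ((wF P k).map (te f e (false :: l)))).hom = (1 - φ) * A := by
      change (F.map ((wF P k).map (te f e l ⊗ₘ e))).hom = _
      have h7 : F.map ((wF P k).map (tp P l.length ◁ e)) =
          𝟙 _ - F.map ((wF P k).map (tp P l.length ◁ f)) := by
        rw [hfe, Pool.Agent.N591.AF.sub_wL, Functor.map_sub, Functor.map_sub,
          MonoidalCategory.whiskerLeft_id, CategoryTheory.Functor.map_id,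
          CategoryTheory.Functor.map_id]
      rw [MonoidalCategory.tensorHom_def, Functor.map_comp, Functor.map_comp, h7,
        ModuleCat.hom_comp, ModuleCat.hom_sub, ModuleCat.hom_id]
      rfl
    have h3 := rank_split A φ hφ hc
    rw [e1] at i1
    rw [e2] at i2
    change wS w k (true :: l) + wS w k (false :: l) ≤ finrank Λ (LinearMap.range A)
    exact (add_le_add i1 i2).trans h3

/-- The sum of the ranks of all words. -/
theorem words_total (F : C ⥤ ModuleCat.{x} Λ) [F.Additive] {P : C} {f e : P ⟶ P}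
    (hfe : e = 𝟙 P - f) (N : ℕ) (hfin : Module.Finite Λ (F.obj (tp P N)))
    (hid : SlotZero F (f ≫ f - f) N) (w : List Bool → ℕ)
    (hw : ∀ l : List Bool, l.length = N →
      w l ≤ finrank Λ (LinearMap.range (F.map (te f e l)).hom)) :
    wS w N [] ≤ finrank Λ (F.obj (tp P N)) := by
  have h1 := words_sum F hfe N hfin hid w hw N [] (by simp)
  have h2 : (wF P N).obj (tp P 0) = tp P N := by rw [wF_tp, Nat.zero_add]
  have h3 : finrank Λ (F.obj ((wF P N).obj (tp P 0))) = finrank Λ (F.obj (tp P N)) := by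
    rw [h2]
  have h4 : Module.Finite Λ (F.obj ((wF P N).obj (tp P ([] : List Bool).length))) :=
    finite_wF F P hfin (k := N) (n := 0) (by omega)
  exact (h1.trans (Submodule.finrank_le _)).trans h3.le

end Pool.Agent.T9h41.XG
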