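import Pool.Agent.T9h41.XG.Phase

/-!
# Exponential growth of additive functors on which a numerically trivial endomorphism is not nilpotent
-/

set_option autoImplicit false
set_option linter.unusedSectionVars false

open CategoryTheory Limits MonoidalCategory Module Polynomial
open Pool.Agent.Y112.SR Pool.Agent.Y112.KD Pool.Agent.N64.AF
open Pool.Agent.Y116.MT (tr)

namespace Pool.Agent.T9h41.XG

universe v u w t x

variable {C : Type u} [Category.{v} C] [Preadditive C] [MonoidalCategory C]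
  [MonoidalPreadditive C] [SymmetricCategory C] [RightRigidCategory C]
  {Λ : Type t} [Field Λ] [CharZero Λ] [Linear Λ C] [MonoidalLinear Λ C]
  {K : Type w} [Field K] [Algebra Λ K] {R : SuperRealisation C K}

lemma pwc_pow {X : C} (y : X ⟶ X) (n : ℕ) : ((End.of y) ^ n : End X) = End.of (pwc y n) := by
  induction n with
  | zero => rfl
  | succ n ih =>
    rw [pow_succ, ih]
    rfl

lemma pwc_add {X : C} (y : X ⟶ X) (m n : ℕ) : pwc y (m + n) = pwc y m ≫ pwc y n := by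
  have h1 : End.of (pwc y (m + n)) = End.of (pwc y m ≫ pwc y n) := by
    rw [← pwc_pow, add_comm, pow_add, pwc_pow, pwc_pow]
    rfl
  exact h1

/-- The Fitting endomorphism for all slots. -/
theorem exists_slots {P : C} (u : P ⟶ P) (G : ℕ → (C ⥤ ModuleCat.{x} Λ)) [∀ j, (G j).Additive]
    [∀ j, (G j).Linear Λ] (N : ℕ) (hfin : ∀ j ≤ N, Module.Finite Λ ((G j).obj (tp P j))) :
    ∃ (f g : P ⟶ P) (c : ℕ), f = u ≫ g ∧ ∀ j ≤ N, SlotZero (G j) (f ≫ f - f) j ∧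
      ∀ c' ≥ c, SlotZero (G j) (pwc u c' - f ≫ pwc u c') j := by
  classical
  let ι : Type := {p : Fin (N + 1) × Fin (N + 1) // p.1.1 + 1 + p.2.1 ≤ N}
  let S : ι → (C ⥤ ModuleCat.{x} Λ) := fun i =>
    tensorLeft (tp P i.1.1.1) ⋙ wF P i.1.2.1 ⋙ G (i.1.1.1 + 1 + i.1.2.1)
  have hVfin : ∀ i : ι, Module.Finite Λ ((S i).obj P) := fun i =>
    finite_wF (G (i.1.1.1 + 1 + i.1.2.1)) P (hfin _ i.2) (k := i.1.2.1) (n := i.1.1.1 + 1) rfl
  have hadd : ∀ i : ι, (S i).Additive := fun i => inferInstance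
  have hlin : ∀ i : ι, (S i).Linear Λ := fun i =>
    inferInstanceAs ((tensorLeft (tp P i.1.1.1) ⋙ wF P i.1.2.1 ⋙
      G (i.1.1.1 + 1 + i.1.2.1)).Linear Λ)
  obtain ⟨q, c, hq⟩ := exists_fit_family (Λ := Λ) (fun i : ι => (S i).obj P)
    (fun i => Pool.Agent.N712.AF.act (S i) (End.of u))
  set fE : End P := aeval (End.of u) q * End.of u with hfE
  obtain ⟨f, hf⟩ : ∃ f : P ⟶ P, End.of f = fE := ⟨fE, rfl⟩
  obtain ⟨g, hg⟩ : ∃ g : P ⟶ P, End.of g = aeval (End.of u) q := ⟨aeval (End.of u) q, rfl⟩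
  have hfg : f = u ≫ g := by
    have h3 : End.of f = End.of (u ≫ g) := by
      rw [hf, hfE, ← hg]
      rfl
    exact h3
  have hact : ∀ i : ι, Pool.Agent.N712.AF.act (S i) (End.of f) =
      aeval (Pool.Agent.N712.AF.act (S i) (End.of u)) q *
        Pool.Agent.N712.AF.act (S i) (End.of u) := by
    intro i
    rw [hf, hfE, map_mul, ← Polynomial.aeval_algHom_apply]
  refine ⟨f, g, c, hfg, fun j hj => ⟨?_, ?_⟩⟩
  · intro n k h
    subst h
    let i : ι := ⟨(⟨n, by omega⟩, ⟨k, by omega⟩), hj⟩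
    have h1 := (hq i).1
    rw [← hact] at h1
    have h2 : (S i).map (f ≫ f) = (S i).map f := by
      rw [Functor.map_comp]
      apply ModuleCat.hom_ext
      exact h1
    have h3 : (S i).map (f ≫ f - f) = 0 := by
      rw [Functor.map_sub, h2, sub_self]
    exact h3
  · intro c' hc' n k h
    subst h
    let i : ι := ⟨(⟨n, by omega⟩, ⟨k, by omega⟩), hj⟩
    have h1 := (hq i).2
    rw [← hact] at h1
    have h0 : (Pool.Agent.N712.AF.act (S i) (End.of u)) ^ c' *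
        Pool.Agent.N712.AF.act (S i) (End.of f) =
        (Pool.Agent.N712.AF.act (S i) (End.of u)) ^ c' := by
      obtain ⟨d, rfl⟩ := Nat.exists_eq_add_of_le hc'
      rw [add_comm c d, pow_add, mul_assoc, h1]
    rw [← map_pow, ← map_mul, pwc_pow] at h0
    have h2 : (S i).map (f ≫ pwc u c') = (S i).map (pwc u c') := by
      apply ModuleCat.hom_ext
      exact h0
    have h3 : (S i).map (pwc u c' - f ≫ pwc u c') = 0 := by
      rw [Functor.map_sub, h2, sub_self]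
    exact h3

lemma pw_comp {P : C} (a b : P ⟶ P) : ∀ n, pw (a ≫ b) n = pw a n ≫ pw b n
  | 0 => (Category.comp_id _).symm
  | n + 1 => by
    change pw (a ≫ b) n ⊗ₘ (a ≫ b) = (pw a n ⊗ₘ a) ≫ (pw b n ⊗ₘ b)
    rw [pw_comp a b n, tensorHom_comp_tensorHom]

lemma pwc_mate {X : C} (y : X ⟶ X) (n : ℕ) :
    pwc (rightAdjointMate y) n = rightAdjointMate (pwc y n) := by
  induction n with
  | zero =>
    change 𝟙 _ = rightAdjointMate (𝟙 X)
    rw [rightAdjointMate_id]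
  | succ n ih =>
    change rightAdjointMate y ≫ pwc _ n = rightAdjointMate (y ≫ pwc y n)
    rw [ih, pwc_comm, comp_rightAdjointMate]

/-- The retraction of `P ^ (j + 1) ⊗ X` to `P ^ j ⊗ X`. -/
lemma retr (X : C) (j : ℕ) :
    (tp (X ⊗ Xᘁ) j ◁ inc X ≫ (α_ _ _ _).inv) ≫ ((α_ _ _ _).hom ≫ tp (X ⊗ Xᘁ) j ◁ prj X) =
      𝟙 (tp (X ⊗ Xᘁ) j ⊗ X) := by
  rw [Category.assoc, Iso.inv_hom_id_assoc, ← MonoidalCategory.whiskerLeft_comp, inc_prj,
    MonoidalCategory.whiskerLeft_id]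

lemma finite_retract (F : C ⥤ ModuleCat.{x} Λ) {Y Z : C} (i : Y ⟶ Z) (r : Z ⟶ Y)
    (h : i ≫ r = 𝟙 Y) (hZ : Module.Finite Λ (F.obj Z)) : Module.Finite Λ (F.obj Y) := by
  refine Module.Finite.of_surjective (F.map r).hom fun v => ⟨(F.map i).hom v, ?_⟩
  have h1 := congrArg F.map h
  rw [F.map_comp, F.map_id] at h1
  exact congrArg (fun g => (ModuleCat.Hom.hom g) v) h1

lemma finite_down (F : C ⥤ ModuleCat.{x} Λ) (X : C) {N : ℕ}
    (h : Module.Finite Λ (F.obj (tp (X ⊗ Xᘁ) N ⊗ X))) :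
    ∀ d j, j + d = N → Module.Finite Λ (F.obj (tp (X ⊗ Xᘁ) j ⊗ X))
  | 0, j, hj => by
    have : j = N := hj
    rw [this]
    exact h
  | d + 1, j, hj =>
    finite_retract F _ _ (retr X j) (finite_down F X h d (j + 1) (by omega))

lemma numTriv_mate (hR : IsReal Λ R) {X : C} {y : X ⟶ X} (hy : NumTriv y) :
    NumTriv (rightAdjointMate y) := by
  unfold rightAdjointMate
  have h1 := (hy.whiskerRight hR Xᘁ).whiskerLeft hR Xᘁ
  have h2 := NumTriv.comp hR h1 ((ρ_ Xᘁ).inv ≫ Xᘁ ◁ η_ X Xᘁ)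
    ((α_ Xᘁ X Xᘁ).inv ≫ ε_ X Xᘁ ▷ Xᘁ ≫ (λ_ Xᘁ).hom)
  simpa only [Category.assoc] using h2

/-- conjugate endomorphisms have images of the same dimension -/
lemma rank_conj (F : C ⥤ ModuleCat.{x} Λ) {Y Z : C} (σ : Y ≅ Z) {a : Y ⟶ Y} {b : Z ⟶ Z}
    (h : a ≫ σ.hom = σ.hom ≫ b) [Module.Finite Λ (F.obj Y)] :
    finrank Λ (LinearMap.range (F.map b).hom) ≤ finrank Λ (LinearMap.range (F.map a).hom) := by
  have h2 : F.map b = F.map σ.inv ≫ F.map a ≫ F.map σ.hom := by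
    rw [← Functor.map_comp, ← Functor.map_comp, h, Iso.inv_hom_id_assoc]
  rw [h2]
  have h3 : (F.map σ.inv ≫ F.map a ≫ F.map σ.hom).hom =
      (F.map σ.hom).hom ∘ₗ (F.map a).hom ∘ₗ (F.map σ.inv).hom := rfl
  rw [h3, LinearMap.range_comp]
  exact (Submodule.finrank_map_le _ _).trans
    (Submodule.finrank_mono (LinearMap.range_comp_le_range _ _))

omit [Preadditive C] [MonoidalPreadditive C] [RightRigidCategory C] in
lemma pair_iso {Y Y' Q P Q' P' Z : C} {σ : Y ≅ Q ⊗ P} {σ' : Y' ≅ Q' ⊗ P'} {t : Y ⟶ Y}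
    {t' : Y' ⟶ Y'} {a : Q ⟶ Q} {b : P ⟶ P} {a' : Q' ⟶ Q'} {b' : P' ⟶ P'}
    (hσ : t ≫ σ.hom = σ.hom ≫ (a ⊗ₘ b)) (hσ' : t' ≫ σ'.hom = σ'.hom ≫ (a' ⊗ₘ b'))
    (v : Z ⟶ Z) : ∃ ω : Y ⊗ (Y' ⊗ Z) ≅ (Q ⊗ Q') ⊗ (P ⊗ (P' ⊗ Z)),
      (t ⊗ₘ (t' ⊗ₘ v)) ≫ ω.hom = ω.hom ≫ ((a ⊗ₘ a') ⊗ₘ (b ⊗ₘ (b' ⊗ₘ v))) := by
  let m : (Q ⊗ P) ⊗ (Q' ⊗ (P' ⊗ Z)) ≅ (Q ⊗ Q') ⊗ (P ⊗ (P' ⊗ Z)) :=
    ⟨tensorμ Q P Q' (P' ⊗ Z), tensorδ Q P Q' (P' ⊗ Z), by simp, by simp⟩
  refine ⟨tensorIso σ (whiskerRightIso σ' Z ≪≫ α_ _ _ _) ≪≫ m, ?_⟩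
  change (t ⊗ₘ (t' ⊗ₘ v)) ≫ (σ.hom ⊗ₘ (σ'.hom ▷ Z ≫ (α_ _ _ _).hom)) ≫ tensorμ _ _ _ _ =
    ((σ.hom ⊗ₘ (σ'.hom ▷ Z ≫ (α_ _ _ _).hom)) ≫ tensorμ _ _ _ _) ≫
      ((a ⊗ₘ a') ⊗ₘ (b ⊗ₘ (b' ⊗ₘ v)))
  rw [Category.assoc, ← tensorμ_natural, ← Category.assoc, ← Category.assoc,
    tensorHom_comp_tensorHom, tensorHom_comp_tensorHom, hσ]
  congr 2
  rw [Category.assoc, ← associator_naturality, ← Category.assoc, ← Category.assoc,
    ← tensorHom_id, tensorHom_comp_tensorHom, tensorHom_comp_tensorHom, hσ', Category.comp_id,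
    Category.id_comp]

/-- The number of words, weighted. -/
theorem exp_growth_words (hR : IsReal Λ R) {X : C} {y : X ⟶ X} (hy : NumTriv y)
    (F : C ⥤ ModuleCat.{x} Λ) [F.Additive] [F.Linear Λ]
    (hn : ¬ IsNilpotent ((F.map y).hom : Module.End Λ (F.obj X))) (N : ℕ)
    (hfin : Module.Finite Λ (F.obj (tp (X ⊗ Xᘁ) N ⊗ X))) :
    wS (fun l => wS (fun l' => if nf l = nf l' then numRank Λ (tp (X ⊗ Xᘁ) (nf l)) else 0) N [])
      N [] ≤ finrank Λ (F.obj (tp (X ⊗ Xᘁ) N ⊗ X)) := by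
  classical
  have hfinj := finite_down F X hfin
  obtain ⟨X', hX'⟩ : ∃ X' : C, X' = Xᘁ := ⟨_, rfl⟩
  subst hX'
  set X' := Xᘁ with hX'
  set y' : X' ⟶ X' := rightAdjointMate y with hy'
  -- the isomorphisms
  have hiso : ∀ j, ∃ s : tp (X ⊗ X') j ⊗ X ≅ tp X j ⊗ (tp X' j ⊗ X),
      ∀ (u : X ⟶ X) (u' : X' ⟶ X') (v : X ⟶ X), (pw (u ⊗ₘ u') j ⊗ₘ v) ≫ s.hom =
        s.hom ≫ (pw u j ⊗ₘ (pw u' j ⊗ₘ v)) := by
    intro j
    obtain ⟨τ, hτ⟩ := split (P := X) (P' := X') j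
    refine ⟨whiskerRightIso τ X ≪≫ α_ _ _ _, fun u u' v => ?_⟩
    change (pw (u ⊗ₘ u') j ⊗ₘ v) ≫ (τ.hom ▷ X) ≫ (α_ _ _ _).hom =
      ((τ.hom ▷ X) ≫ (α_ _ _ _).hom) ≫ (pw u j ⊗ₘ (pw u' j ⊗ₘ v))
    rw [Category.assoc, ← associator_naturality, ← Category.assoc, ← Category.assoc,
      ← tensorHom_id, tensorHom_comp_tensorHom, tensorHom_comp_tensorHom, hτ, Category.comp_id,
      Category.id_comp]
  have hVfin : ∀ j ≤ N, Module.Finite Λ (F.obj (tp X j ⊗ (tp X' j ⊗ X))) := by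
    intro j hj
    obtain ⟨s, _⟩ := hiso j
    exact finite_retract F s.inv s.hom s.inv_hom_id (hfinj (N - j) j (by omega))
  let GA : ℕ → (C ⥤ ModuleCat.{x} Λ) := fun j => tensorRight (tp X' j ⊗ X) ⋙ F
  let GB : ℕ → (C ⥤ ModuleCat.{x} Λ) := fun j => tensorRight X ⋙ tensorLeft (tp X j) ⋙ F
  have : ∀ j, (GA j).Additive := fun j => inferInstance
  have : ∀ j, (GB j).Additive := fun j => inferInstance
  have : ∀ j, (GA j).Linear Λ := fun j => inferInstanceAs ((tensorRight (tp X' j ⊗ X) ⋙ F).Linear Λ)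
  have : ∀ j, (GB j).Linear Λ := fun j =>
    inferInstanceAs ((tensorRight X ⋙ tensorLeft (tp X j) ⋙ F).Linear Λ)
  obtain ⟨f, g, c₁, hfg, hf⟩ := exists_slots y GA N hVfin
  obtain ⟨f', g', c₂, hfg', hf'⟩ := exists_slots y' GB N hVfin
  -- numerical triviality
  have hfn : NumTriv ((𝟙 X - f) - 𝟙 X) := by
    have h1 : (𝟙 X - f) - 𝟙 X = -f := by abel
    rw [h1, hfg]
    refine (numIdeal Λ X X).neg_mem ?_
    have := NumTriv.comp hR hy (𝟙 _) g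
    rw [Category.id_comp] at this
    exact this
  have hfn' : NumTriv ((𝟙 X' - f') - 𝟙 X') := by
    have h1 : (𝟙 X' - f') - 𝟙 X' = -f' := by abel
    rw [h1, hfg']
    refine (numIdeal Λ X' X').neg_mem ?_
    have := NumTriv.comp hR (numTriv_mate hR hy) (𝟙 _) g'
    rw [Category.id_comp] at this
    exact this
  -- nonvanishing
  have hne : ∀ j ≤ N, F.map (pw f j ⊗ₘ (pw f' j ⊗ₘ 𝟙 X)) ≠ 0 := by
    intro j hj h0
    set c := c₁ + c₂ with hc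
    have hA : F.map (pw (pwc y c) j ▷ (tp X' j ⊗ X)) =
        F.map (pw (f ≫ pwc y c) j ▷ (tp X' j ⊗ X)) :=
      map_pw_eq (GA j) ((hf j hj).2 c (by omega))
    have hB : F.map (tp X j ◁ (pw (pwc y' c) j ▷ X)) =
        F.map (tp X j ◁ (pw (f' ≫ pwc y' c) j ▷ X)) :=
      map_pw_eq (GB j) ((hf' j hj).2 c (by omega))
    have h1 : F.map (pw (pwc y c) j ⊗ₘ (pw (pwc y' c) j ⊗ₘ 𝟙 X)) = 0 := by
      have e1 : ∀ (a : tp X j ⟶ tp X j) (b : tp X' j ⟶ tp X' j),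
          F.map (a ⊗ₘ (b ⊗ₘ 𝟙 X)) = F.map (a ▷ (tp X' j ⊗ X)) ≫ F.map (tp X j ◁ (b ▷ X)) := by
        intro a b
        rw [MonoidalCategory.tensorHom_def, tensorHom_id, F.map_comp]
      rw [e1, hA, hB, ← e1, pw_comp, pw_comp]
      have e2 : ((pw f j ≫ pw (pwc y c) j) ⊗ₘ ((pw f' j ≫ pw (pwc y' c) j) ⊗ₘ 𝟙 X)) =
          (pw f j ⊗ₘ (pw f' j ⊗ₘ 𝟙 X)) ≫ (pw (pwc y c) j ⊗ₘ (pw (pwc y' c) j ⊗ₘ 𝟙 X)) := by
        rw [tensorHom_comp_tensorHom, tensorHom_comp_tensorHom, Category.comp_id]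
      rw [e2, F.map_comp, h0, Limits.zero_comp]
    obtain ⟨s, hs⟩ := hiso j
    have h2 : F.map (pw (pwc y c ⊗ₘ pwc y' c) j ⊗ₘ 𝟙 X) = 0 := by
      have e1 : (pw (pwc y c ⊗ₘ pwc y' c) j ⊗ₘ 𝟙 X) =
          s.hom ≫ (pw (pwc y c) j ⊗ₘ (pw (pwc y' c) j ⊗ₘ 𝟙 X)) ≫ s.inv := by
        rw [← Category.assoc, ← hs, Category.assoc, Iso.hom_inv_id, Category.comp_id]
      rw [e1, F.map_comp, F.map_comp, h1, Limits.zero_comp, Limits.comp_zero]
    have h3 := congrArg F.map (compress (pwc y c) j (𝟙 X))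
    rw [← pwc_mate, Functor.map_comp, Functor.map_comp, h2, Limits.zero_comp,
      Limits.comp_zero, Category.id_comp] at h3
    apply hn
    have h4 : (Pool.Agent.N712.AF.act F (End.of y)) ^ ((c + c) * j) = 0 := by
      have h5 : (End.of y : End X) ^ ((c + c) * j) =
          End.of (pwc (pwc y c ≫ pwc y c) j) := by
        rw [pow_mul, pow_add, pwc_pow y c, ← pwc_pow (pwc y c ≫ pwc y c) j]
        rfl
      rw [← map_pow, h5]
      change (F.map (pwc (pwc y c ≫ pwc y c) j)).hom = 0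
      rw [← h3]
      rfl
    exact ⟨_, h4⟩
  -- the ranks of pairs of words
  have hpair : ∀ l l' : List Bool, l.length = N → l'.length = N → nf l = nf l' →
      numRank Λ (tp (X ⊗ X') (nf l)) ≤ finrank Λ (LinearMap.range
        (F.map (te f (𝟙 X - f) l ⊗ₘ (te f' (𝟙 X' - f') l' ⊗ₘ 𝟙 X))).hom) := by
    intro l l' hl hl' hnf
    have c1 := nf_add_nt l
    have c2 := nf_add_nt l'
    have hnt : nt l = nt l' := by omega
    obtain ⟨σ, hσ⟩ := sort f (𝟙 X - f) l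
    obtain ⟨σ', hσ'⟩ := sort f' (𝟙 X' - f') l'
    obtain ⟨ω, hω⟩ := pair_iso hσ hσ' (𝟙 X)
    have hfin1 : Module.Finite Λ (F.obj (tp X l.length ⊗ (tp X' l'.length ⊗ X))) := by
      rw [hl, hl']
      exact hVfin N le_rfl
    have hfin2 : Module.Finite Λ (F.obj ((tp X (nf l) ⊗ tp X' (nf l')) ⊗
        (tp X (nt l) ⊗ (tp X' (nt l') ⊗ X)))) :=
      finite_retract F ω.inv ω.hom ω.inv_hom_id hfin1
    have hG : F.map (pw f (nt l) ⊗ₘ (pw f' (nt l') ⊗ₘ 𝟙 X)) ≠ 0 := by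
      have := hne (nt l) (by omega)
      rw [← hnt]
      exact this
    have h1 := base hR F (numTriv_tensor hR (numTriv_pw hR hfn (nf l))
      (numTriv_pw hR hfn' (nf l'))) hG
    have h2 := rank_conj F ω hω
    have h3 : numRank Λ (tp (X ⊗ X') (nf l)) = numRank Λ (tp X (nf l) ⊗ tp X' (nf l')) := by
      obtain ⟨τ, _⟩ := split (P := X) (P' := X') (nf l)
      rw [numRank_eq, numRank_eq, nr_congr_right hR τ (𝟙 (𝟙_ C)) (f' := 𝟙 _)
        (by rw [Category.id_comp, Category.comp_id]), ← hnf]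
    rw [h3]
    exact h1.trans h2
  -- the second kind of slots
  have hsec : ∀ l : List Bool, l.length = N →
      wS (fun l' => if nf l = nf l' then numRank Λ (tp (X ⊗ X') (nf l)) else 0) N [] ≤
        finrank Λ (LinearMap.range ((GA N).map (te f (𝟙 X - f) l)).hom) := by
    intro l hl
    have hid : SlotZero (tensorRight X ⋙ tensorLeft (tp X l.length) ⋙ F) (f' ≫ f' - f') N := by
      rw [hl]
      exact (hf' N le_rfl).1
    refine phase2 F (te f (𝟙 X - f) l) X rfl N ?_ hid _ fun l' hl' => ?_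
    · rw [hl]
      exact hVfin N le_rfl
    · split_ifs with h
      · exact hpair l l' hl hl' h
      · exact Nat.zero_le _
  have h1 := words_total (GA N) rfl N (hVfin N le_rfl) (hf N le_rfl).1 _ hsec
  obtain ⟨s, _⟩ := hiso N
  exact h1.trans ((F.mapIso s).toLinearEquiv.finrank_eq).symm.le

end Pool.Agent.T9h41.XG
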