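import Pool.Agent.T9h41.XG.Chow
import Pool.Agent.N64.AF.W
import Pool.Agent.N64.AF.K2

/-!
# Noncommutative motives
-/

set_option autoImplicit false
set_option linter.unusedSectionVars false

open CategoryTheory Limits MonoidalCategory Module Filter Topology Polynomial
open Pool.Agent.Y112.SR Pool.Agent.Y112.KD Pool.Agent.N64.AF Pool.Agent.N413.AFW

namespace Pool.Agent.T9h41.XG

universe v u w t x

variable {C : Type u} [Category.{v} C] [Preadditive C] [MonoidalCategory C]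
  [MonoidalPreadditive C] [SymmetricCategory C] [RightRigidCategory C]
  {Λ : Type t} [Field Λ] [CharZero Λ] [Linear Λ C] [MonoidalLinear Λ C]
  {K : Type w} [Field K] [IsAlgClosed K] [Algebra Λ K] {R : SuperRealisation C K}

/-- The Frobenius produces a homologically trivial correspondence which acts on cycles as the
complement of the projector to the numerical part. -/
theorem exists_hom_triv (hR : IsReal Λ R) {Y : C} {q : ℕ} (hq : 1 < q) (Fr : Y ⟶ Y)
    (hT : IsTateSS Λ R q Fr) (hc : Killed q (homF Λ (𝟙_ C)) Fr) :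
    ∃ (α : Fin (numRank Λ Y) → (𝟙_ C ⟶ Y)) (β : Fin (numRank Λ Y) → (Y ⟶ 𝟙_ C)) (y : Y ⟶ Y),
      R.H.map y = 0 ∧ ∀ γ : 𝟙_ C ⟶ Y, γ ≫ y = γ - ∑ i, (γ ≫ β i) ≫ α i := by
  have : CharZero K := charZero_of_injective_algebraMap (algebraMap Λ K).injective
  obtain ⟨p, hp0, hp⟩ := hT.weil
  obtain ⟨dC, mC, hCk⟩ := hc
  obtain ⟨p₂, M₁, hdvd, hcop⟩ := exists_coprime_part (Qp Λ q dC) _ p hp0 le_rfl
  set M := max M₁ mC with hM
  obtain ⟨a, b, hab⟩ : IsCoprime p₂ ((Qp Λ q dC) ^ M) := hcop.pow_right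
  set P := a * p₂ with hP
  have hP1 : P = 1 - b * (Qp Λ q dC) ^ M := by rw [← hab]; ring
  obtain ⟨g, hg⟩ := exists_aeval (Λ := Λ) Fr P
  have hone' : ∀ (L : Type v) [AddCommGroup L] [Module Λ L] (T : Module.End Λ L) (m : ℕ),
      m ≤ M → aeval T ((Qp Λ q dC) ^ m) = 0 → aeval T P = 1 := by
    intro L _ _ T m h2 h3
    have h4 : (Qp Λ q dC) ^ m ∣ (Qp Λ q dC) ^ M := pow_dvd_pow _ h2
    obtain ⟨s, hs⟩ := h4
    rw [hP1, hs, map_sub, map_one, map_mul, map_mul, h3, zero_mul, mul_zero, sub_zero]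
  have hCg : ∀ γ : 𝟙_ C ⟶ Y, γ ≫ g = γ := by
    intro γ
    have h1 := map_aeval_F Fr g P hg (homF Λ (𝟙_ C))
    rw [hone' _ _ mC (by omega) hCk] at h1
    exact LinearMap.congr_fun h1 γ
  set φ : Module.End K (R.H.obj Y) := (R.H.map Fr).hom with hφ
  have hRg := map_aeval_R hR Fr g P hg
  have hp' : aeval φ (p.map (algebraMap Λ K)) = 0 := hp
  have hkill : aeval φ ((Qp K q dC) ^ M₁ * P.map (algebraMap Λ K)) = 0 := by
    obtain ⟨s, hs⟩ := hdvd
    have h1 : (Qp K q dC) ^ M₁ * P.map (algebraMap Λ K) =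
        (a.map (algebraMap Λ K) * s.map (algebraMap Λ K)) * p.map (algebraMap Λ K) := by
      have h2 := congrArg (Polynomial.map (algebraMap Λ K)) hs
      rw [Polynomial.map_mul, Polynomial.map_pow, Qp_map, Polynomial.map_mul] at h2
      rw [hP, Polynomial.map_mul]
      calc (Qp K q dC) ^ M₁ * (a.map (algebraMap Λ K) * p₂.map (algebraMap Λ K))
          = a.map (algebraMap Λ K) * ((Qp K q dC) ^ M₁ * p₂.map (algebraMap Λ K)) := by ring
        _ = _ := by rw [h2]; ring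
    rw [h1, map_mul, hp', mul_zero]
  have hcl : ∀ s : R.H.obj (𝟙_ C) →ₗ[K] R.H.obj Y, (R.H.map g).hom ∘ₗ s ∈ CK R (𝟙_ C) Y := by
    intro s
    refine mem_of_killed (postc (R.H.obj (𝟙_ C)) φ) (CK R (𝟙_ C) Y) hq (fun i N w hw => ?_) dC M₁ _ ?_
    · refine hT.classes i N w ?_
      have h1 : postc (R.H.obj (𝟙_ C)) φ - (q : K) ^ i • 1 =
          postc (R.H.obj (𝟙_ C)) (φ - (q : K) ^ i • 1) := by
        ext w v
        simp [postc]
      rw [h1, postc_pow] at hw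
      exact hw
    · rw [postc_aeval, ← LinearMap.comp_assoc]
      have h1 : (aeval φ ((Qp K q dC) ^ M₁)) ∘ₗ (R.H.map g).hom = 0 := by
        rw [hRg, ← Module.End.mul_eq_comp, ← map_mul, hkill]
      rw [h1, LinearMap.zero_comp]
  have hfn : ∀ s : R.H.obj Y →ₗ[K] R.H.obj (𝟙_ C), s ∘ₗ (R.H.map g).hom ∈ CK R Y (𝟙_ C) := by
    intro s
    refine mem_of_killed (prec (R.H.obj (𝟙_ C)) φ) (CK R Y (𝟙_ C)) hq (fun i N w hw => ?_) dC M₁ _ ?_
    · refine hT.functionals i N w ?_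
      have h1 : prec (R.H.obj (𝟙_ C)) φ - (q : K) ^ i • 1 =
          prec (R.H.obj (𝟙_ C)) (φ - (q : K) ^ i • 1) := by
        ext w v
        simp [prec]
      rw [h1, prec_pow] at hw
      exact hw
    · rw [prec_aeval, LinearMap.comp_assoc]
      have h1 : (R.H.map g).hom ∘ₗ (aeval φ ((Qp K q dC) ^ M₁)) = 0 := by
        rw [hRg, ← Module.End.mul_eq_comp, ← map_mul, mul_comm, hkill]
      rw [h1, LinearMap.comp_zero]
  have hnum : ∀ δ : 𝟙_ C ⟶ Y, NumTriv δ → R.H.map δ = 0 := by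
    intro δ hδ
    have h0 := (numTriv_unit_iff hR δ).1 hδ
    have h1 : ∀ s ∈ CK R Y (𝟙_ C), s ∘ₗ (R.H.map δ).hom = 0 := by
      intro s hs
      unfold CK at hs
      induction hs using Submodule.span_induction with
      | mem s hs =>
        obtain ⟨β, rfl⟩ := hs
        have h2 : (R.H.map (δ ≫ β)).hom = (R.H.map (0 : 𝟙_ C ⟶ 𝟙_ C)).hom := by rw [h0 β]
        rw [R.H.map_comp, R.H.map_zero] at h2
        exact h2
      | zero => exact LinearMap.zero_comp _
      | add s t _ _ hs ht => rw [LinearMap.add_comp, hs, ht, add_zero]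
      | smul c s _ hs => rw [LinearMap.smul_comp, hs, smul_zero]
    by_contra hne
    obtain ⟨v, hv⟩ : ∃ v, (R.H.map δ).hom v ≠ 0 := by
      by_contra hcon
      push Not at hcon
      apply hne
      ext v
      exact hcon v
    obtain ⟨ℓ, hℓ⟩ : ∃ ℓ : Module.Dual K (R.H.obj Y), ℓ ((R.H.map δ).hom v) ≠ 0 := by
      by_contra hcon
      push Not at hcon
      exact hv ((Module.forall_dual_apply_eq_zero_iff K _).1 hcon)
    have hv0 : v ≠ 0 := fun h => hv (by rw [h, map_zero])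
    have h2 := h1 _ (hfn ((LinearMap.toSpanSingleton K _ v) ∘ₗ ℓ))
    have h3 : (R.H.map g).hom ∘ₗ (R.H.map δ).hom = (R.H.map δ).hom := by
      have h4 : (R.H.map (δ ≫ g)).hom = (R.H.map δ).hom := by rw [hCg δ]
      rw [R.H.map_comp] at h4
      exact h4
    rw [LinearMap.comp_assoc, h3] at h2
    have h5 := LinearMap.congr_fun h2 v
    have h6 : ℓ ((R.H.map δ).hom v) • v = 0 := h5
    rcases smul_eq_zero.1 h6 with h | h
    · exact hℓ h
    · exact hv0 h
  obtain ⟨α, β, hαβ, hexp⟩ := exists_dual hR Y (Λ := Λ)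
  set e : Y ⟶ Y := ∑ i, β i ≫ α i with he
  have hRe : ∀ c ∈ CK R (𝟙_ C) Y, (R.H.map e).hom ∘ₗ c = c := by
    intro c hc
    unfold CK at hc
    induction hc using Submodule.span_induction with
    | mem c hc =>
      obtain ⟨γ, rfl⟩ := hc
      have h1 := hnum _ (hexp γ)
      have h2 : ∑ i, (γ ≫ β i) ≫ α i = γ ≫ e := by
        rw [he, Preadditive.comp_sum]
        refine Finset.sum_congr rfl fun i _ => ?_
        rw [Category.assoc]
      rw [h2, R.H.map_sub, sub_eq_zero, R.H.map_comp] at h1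
      have h3 := congrArg (fun m => ModuleCat.Hom.hom m) h1
      exact h3.symm
    | zero => exact LinearMap.comp_zero _
    | add s t _ _ hs ht => rw [LinearMap.comp_add, hs, ht]
    | smul c s _ hs => rw [LinearMap.comp_smul, hs]
  obtain ⟨x1, ℓ1, hℓ1⟩ : ∃ (x1 : R.H.obj (𝟙_ C)) (ℓ1 : Module.Dual K (R.H.obj (𝟙_ C))),
      ℓ1 x1 = 1 := by
    have h4 : finrank K (R.H.obj (𝟙_ C)) = 1 := bt_unit R
    have h5 : 0 < finrank K (R.H.obj (𝟙_ C)) := by omega
    have h6 : Module.Finite K (R.H.obj (𝟙_ C)) := R.finite _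
    obtain ⟨x, hx⟩ := Module.finrank_pos_iff_exists_ne_zero.1 h5
    obtain ⟨ℓ, hℓ⟩ : ∃ ℓ : Module.Dual K (R.H.obj (𝟙_ C)), ℓ x ≠ 0 := by
      by_contra hcon
      push Not at hcon
      exact hx ((Module.forall_dual_apply_eq_zero_iff K _).1 hcon)
    exact ⟨x, (ℓ x)⁻¹ • ℓ, by
      rw [LinearMap.smul_apply, smul_eq_mul, inv_mul_cancel₀ hℓ]⟩
  have hRy : R.H.map (g - g ≫ e) = 0 := by
    rw [R.H.map_sub, sub_eq_zero, R.H.map_comp]
    ext w
    have h1 := LinearMap.congr_fun (hRe _ (hcl ((LinearMap.toSpanSingleton K _ w) ∘ₗ ℓ1))) x1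
    have h2 : ((R.H.map g).hom ∘ₗ ((LinearMap.toSpanSingleton K _ w) ∘ₗ ℓ1)) x1 =
        (R.H.map g).hom w := by
      change (R.H.map g).hom (ℓ1 x1 • w) = _
      rw [hℓ1, one_smul]
    rw [LinearMap.comp_apply, h2] at h1
    exact h1.symm
  refine ⟨α, β, g - g ≫ e, hRy, fun γ => ?_⟩
  rw [Preadditive.comp_sub, ← Category.assoc, hCg, he, Preadditive.comp_sum]
  congr 1
  refine Finset.sum_congr rfl fun i _ => ?_
  rw [Category.assoc]

/-- The noncommutative conjecture of Beilinson for `A`: `Ker χ = 0`. The group `K_0` of a smooth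
proper dg category `𝒜`, tensored with `ℚ`, is the group of morphisms from the unit object to the
noncommutative motive `A` of `𝒜`, and its elements which are orthogonal to `K_0 (𝒜)` for the Euler
pairing `χ` are the morphisms whose composites with all morphisms from `A` to the unit object are
zero. -/
def Beilinson (A : C) : Prop :=
  ∀ x : 𝟙_ C ⟶ A, (∀ z : A ⟶ 𝟙_ C, x ≫ z = 0) → x = 0

/-- Exponential growth with a rate larger than `b`: the dimension (a number or infinity) of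
`K_0 ((𝒜 ⊗ 𝒜ᵒᵖ) ^ N ⊗ 𝒜)_ℚ` is at least `(b + 1) ^ (2 N) / (N + 1) ^ (b ^ 2 + 1)` for all `N`. -/
def NCGrows (Λ : Type t) [Field Λ] [Linear Λ C] (A : C) (b : ℕ) : Prop :=
  ∀ N : ℕ, (((b + 1) ^ (2 * N) : ℕ) : ℕ∞) ≤
    ((N + 1) ^ (b ^ 2 + 1) : ℕ) * dimE Λ (𝟙_ C ⟶ tp (A ⊗ Aᘁ) N ⊗ A)

/-- An element which is fixed by an endomorphism. -/
lemma not_nilpotent_of_fixed {W : Type*} [AddCommGroup W] [Module Λ W] (L : Module.End Λ W)
    {x : W} (hx : x ≠ 0) (h : L x = x) : ¬ IsNilpotent L := by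
  rintro ⟨n, hn⟩
  have h4 : ∀ n : ℕ, (L ^ n) x = x := by
    intro n
    induction n with
    | zero => rfl
    | succ n ih => rw [pow_succ, Module.End.mul_apply, h, ih]
  have h5 := h4 n
  rw [hn] at h5
  exact hx h5.symm

/-- The dichotomy for a direct summand. -/
theorem grows_of_not_beilinson (hR : IsReal Λ R) {Y A : C} (hA : R.CPlus A) {q : ℕ} (hq : 1 < q)
    (Fr : Y ⟶ Y) (hT : IsTateSS Λ R q Fr) (hc : Killed q (homF Λ (𝟙_ C)) Fr)
    (i : A ⟶ Y) (r : Y ⟶ A) (hir : i ≫ r = 𝟙 A) (hB : ¬ Beilinson A) :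
    NCGrows Λ A (bt R A) := by
  obtain ⟨α, β, y, hy, hcy⟩ := exists_hom_triv hR hq Fr hT hc
  unfold Beilinson at hB
  push Not at hB
  obtain ⟨x, hx, hx0⟩ := hB
  have h1 : NumTriv (i ≫ y ≫ r) := by
    refine numTriv_of_map hR ?_
    rw [R.H.map_comp, R.H.map_comp, hy, Limits.zero_comp, Limits.comp_zero]
  have h2 : x ≫ (i ≫ y ≫ r) = x := by
    have h3 : x ≫ (i ≫ y ≫ r) = ((x ≫ i) ≫ y) ≫ r := by simp only [Category.assoc]
    rw [h3, hcy]
    have h4 : ∀ j, ((x ≫ i) ≫ β j) ≫ α j = 0 := by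
      intro j
      have h5 : (x ≫ i) ≫ β j = 0 := by
        rw [Category.assoc]
        exact hx (i ≫ β j)
      rw [h5, Limits.zero_comp]
    rw [Finset.sum_congr rfl fun j _ => h4 j, Finset.sum_const_zero, sub_zero, Category.assoc,
      hir, Category.comp_id]
  exact fun N => exp_gap hR hA h1 (homF Λ (𝟙_ C))
    (not_nilpotent_of_fixed (W := (homF Λ (𝟙_ C)).obj A) _ (x := x) hx0 h2) N

/-- The dual of a direct summand of a self-dual object. -/
theorem retract_dual {T A : C} [ExactPairing T T] (i : A ⟶ T) (r : T ⟶ A) (hir : i ≫ r = 𝟙 A) :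
    ∃ (i' : Aᘁ ⟶ T) (r' : T ⟶ Aᘁ), i' ≫ r' = 𝟙 (Aᘁ) := by
  let e : Tᘁ ≅ T := rightDualIso inferInstance (inferInstance : ExactPairing T T)
  refine ⟨(rᘁ) ≫ e.hom, e.inv ≫ (iᘁ), ?_⟩
  rw [Category.assoc, e.hom_inv_id_assoc, ← comp_rightAdjointMate, hir, rightAdjointMate_id]

end Pool.Agent.T9h41.XG
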