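import Pool.Agent.T9h41.XG.NC

/-!
# Noncommutative motives, II
-/

set_option autoImplicit false
set_option linter.unusedSectionVars false

open CategoryTheory Limits MonoidalCategory Module Filter Topology
open Pool.Agent.Y112.SR Pool.Agent.Y112.KD Pool.Agent.N64.AF Pool.Agent.N413.AFW

namespace Pool.Agent.T9h41.XG

universe v u w t x

section real

lemma eventually_small' {b m D : ℕ} (c : ℕ) (hb : 0 < b) :
    ∃ a : ℝ, (b : ℝ) < a ∧ ∃ N₀ : ℕ, ∀ N ≥ N₀,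
      ((N + 1 : ℕ) : ℝ) ^ D * (a ^ m) ^ (2 * N + c) < ((b : ℝ) ^ m + 1) ^ (2 * N) := by
  obtain ⟨a, hab, ham⟩ : ∃ a : ℝ, (b : ℝ) < a ∧ a ^ m < (b : ℝ) ^ m + 1 := by
    have h1 : ∀ᶠ y in 𝓝 (b : ℝ), y ^ m < (b : ℝ) ^ m + 1 :=
      ((continuous_pow m).tendsto (b : ℝ)).eventually_lt_const (by linarith)
    obtain ⟨ε, hε, h2⟩ := Metric.eventually_nhds_iff.1 h1
    refine ⟨b + ε / 2, by linarith, h2 ?_⟩
    rw [Real.dist_eq, add_sub_cancel_left, abs_of_pos (by linarith)]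
    linarith
  refine ⟨a, hab, ?_⟩
  set s : ℝ := (b : ℝ) ^ m + 1 with hs
  have hb' : (0 : ℝ) < b := by exact_mod_cast hb
  have ha0 : 0 < a := hb'.trans hab
  have hs0 : 0 < s := by positivity
  set e : ℝ := a ^ m with he
  have he0 : 0 < e := pow_pos ha0 m
  set r : ℝ := (e / s) ^ 2 with hr
  have hes : e / s < 1 := (div_lt_one hs0).2 ham
  have hr0 : 0 < r := by positivity
  have hr1 : |r| < 1 := by
    rw [abs_of_pos hr0]
    have : 0 < e / s := by positivity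
    nlinarith
  have h1 := tendsto_pow_const_mul_const_pow_of_abs_lt_one D hr1
  have h2 : Tendsto (fun n : ℕ => ((n + 1 : ℕ) : ℝ) ^ D * r ^ (n + 1)) atTop (𝓝 0) :=
    h1.comp (tendsto_add_atTop_nat 1)
  have h3 : ∀ᶠ n : ℕ in atTop, ((n + 1 : ℕ) : ℝ) ^ D * r ^ (n + 1) < r / e ^ c :=
    h2.eventually_lt_const (by positivity)
  obtain ⟨N₀, hN⟩ := eventually_atTop.1 h3
  refine ⟨N₀, fun N hNN => ?_⟩
  have h4 := hN N hNN
  have h5 : ((N + 1 : ℕ) : ℝ) ^ D * r ^ N * e ^ c < 1 := by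
    have h6 : ((N + 1 : ℕ) : ℝ) ^ D * r ^ (N + 1) * (e ^ c / r) < r / e ^ c * (e ^ c / r) :=
      mul_lt_mul_of_pos_right h4 (by positivity)
    have h7 : r / e ^ c * (e ^ c / r) = 1 := by field_simp
    rw [h7] at h6
    calc ((N + 1 : ℕ) : ℝ) ^ D * r ^ N * e ^ c
        = ((N + 1 : ℕ) : ℝ) ^ D * r ^ (N + 1) * (e ^ c / r) := by
          rw [pow_succ r N]
          field_simp
      _ < 1 := h6
  have h8 : r ^ N = e ^ (2 * N) / s ^ (2 * N) := by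
    rw [hr, ← pow_mul, div_pow]
  rw [h8] at h5
  have h9 : ((N + 1 : ℕ) : ℝ) ^ D * (e ^ (2 * N) / s ^ (2 * N)) * e ^ c =
      (((N + 1 : ℕ) : ℝ) ^ D * e ^ (2 * N + c)) / s ^ (2 * N) := by
    rw [pow_add]
    ring
  rw [h9, div_lt_one (by positivity)] at h5
  exact h5

/-- A sequence which grows exponentially along the multiples of `m`. -/
theorem growth_rate' {b m D : ℕ} (hm : 0 < m) (hb : 0 < b) (d : ℕ → ℕ∞) (hd : Monotone d)
    (h : ∀ N : ℕ, (((b ^ m + 1) ^ (2 * N) : ℕ) : ℕ∞) ≤ ((N + 1) ^ D : ℕ) * d (m * (N + 1))) :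
    ∃ a : ℝ, ((b ^ 2 : ℕ) : ℝ) < a ∧ ∀ᶠ n in atTop, ∀ x : ℕ, d n = x → a ^ n < (x : ℝ) := by
  obtain ⟨a, hab, N₀, hN⟩ := eventually_small' (m := m) (D := D) 4 hb
  have hb' : (1 : ℝ) ≤ b := by exact_mod_cast hb
  have ha1 : 1 ≤ a := hb'.trans hab.le
  refine ⟨a ^ 2, ?_, ?_⟩
  · push_cast
    exact pow_lt_pow_left₀ hab (by linarith) two_ne_zero
  rw [eventually_atTop]
  refine ⟨(N₀ + 1) * m, fun n hn x hx => ?_⟩
  set N := n / m - 1 with hNdef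
  have h1 : N₀ + 1 ≤ n / m := (Nat.le_div_iff_mul_le hm).2 hn
  have h2 : N₀ ≤ N := by omega
  have h3 : m * (N + 1) ≤ n := by
    have : N + 1 ≤ n / m := by omega
    rw [mul_comm]
    exact (Nat.mul_le_mul_right m this).trans (Nat.div_mul_le_self n m)
  have h4 : n ≤ (N + 2) * m := by
    have h5 : n / m + 1 ≤ N + 2 := by omega
    have h6 : n < (n / m + 1) * m := by
      have := Nat.lt_div_mul_add (a := n) hm
      rw [add_mul, one_mul]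
      exact this
    exact h6.le.trans (Nat.mul_le_mul_right m h5)
  have h5 := (h N).trans (mul_le_mul_right (hd h3) _)
  rw [hx] at h5
  have h6 : (b ^ m + 1) ^ (2 * N) ≤ (N + 1) ^ D * x := by exact_mod_cast h5
  have h7 : ((b : ℝ) ^ m + 1) ^ (2 * N) ≤ ((N + 1 : ℕ) : ℝ) ^ D * x := by exact_mod_cast h6
  by_contra hcon
  rw [not_lt] at hcon
  have h8 : (x : ℝ) ≤ (a ^ m) ^ (2 * N + 4) := by
    refine hcon.trans ?_
    rw [← pow_mul, ← pow_mul]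
    refine pow_le_pow_right₀ ha1 ?_
    calc 2 * n ≤ 2 * ((N + 2) * m) := Nat.mul_le_mul_left _ h4
      _ = m * (2 * N + 4) := by ring
  have h9 := hN N h2
  have h10 : ((N + 1 : ℕ) : ℝ) ^ D * x ≤ ((N + 1 : ℕ) : ℝ) ^ D * (a ^ m) ^ (2 * N + 4) :=
    mul_le_mul_of_nonneg_left h8 (by positivity)
  linarith

end real

variable {C : Type u} [Category.{v} C] [Preadditive C] [MonoidalCategory C]
  [MonoidalPreadditive C] [SymmetricCategory C] [RightRigidCategory C]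
  {Λ : Type t} [Field Λ] [CharZero Λ] [Linear Λ C] [MonoidalLinear Λ C]
  {K : Type w} [Field K] [IsAlgClosed K] [Algebra Λ K] {R : SuperRealisation C K}

/-- Powers of powers of `A ⊗ Aᘁ`. -/
theorem dual_powers_iso (A : C) (m k : ℕ) :
    Nonempty (tp (tp A m ⊗ (tp A m)ᘁ) k ≅ tp (A ⊗ Aᘁ) (m * k)) := by
  have hiso : ∀ k a, Nonempty (tp (A ⊗ Aᘁ) (k * a) ⊗ tp (A ⊗ Aᘁ) k ≅ tp (A ⊗ Aᘁ) (k * a + k)) :=
    fun k a => by
      obtain ⟨i, _⟩ := exists_tp_iso (A ⊗ Aᘁ) (k * a) k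
      exact ⟨i⟩
  let i1 : (tp A m)ᘁ ≅ dp Aᘁ m := rightDualIso inferInstance (pairTp A Aᘁ m)
  let i2 : tp A m ⊗ (tp A m)ᘁ ≅ tp (A ⊗ Aᘁ) m := whiskerLeftIso (tp A m) i1 ≪≫ (isoTp A Aᘁ m).symm
  obtain ⟨i3⟩ := tp_congr i2 k
  obtain ⟨i4⟩ := Pool.Agent.N712.AF.tpIso (A ⊗ Aᘁ) m (hiso m) k
  exact ⟨i3 ≪≫ i4⟩

/-- The dimension of a vector space is invariant under linear isomorphisms. -/
lemma dimE_congr {V : Type*} {W : Type*} [AddCommGroup V] [Module Λ V] [AddCommGroup W]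
    [Module Λ W] (e : V ≃ₗ[Λ] W) : dimE Λ V = dimE Λ W := by
  by_cases h : Module.Finite Λ V
  · have : Module.Finite Λ W := Module.Finite.equiv e
    rw [dimE_eq, dimE_eq, e.finrank_eq]
  · have h' : ¬ Module.Finite Λ W := fun h' => h (Module.Finite.equiv e.symm)
    rw [dimE_top h, dimE_top h']

lemma hom_dual_equiv (X Z : C) :
    Nonempty ((X ⟶ Z ⊗ X) ≃ₗ[Λ] (𝟙_ C ⟶ Z ⊗ (X ⊗ Xᘁ))) := by
  let Φ : (𝟙_ C ⊗ X ⟶ Z ⊗ X) ≃ₗ[Λ] (𝟙_ C ⟶ (Z ⊗ X) ⊗ Xᘁ) :=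
    { tensorRightHomEquiv (𝟙_ C) X (Xᘁ) (Z ⊗ X) with
      map_add' := fun a b => by
        simp only [tensorRightHomEquiv, Equiv.toFun_as_coe, Equiv.coe_fn_mk,
          MonoidalPreadditive.add_whiskerRight, Preadditive.comp_add]
      map_smul' := fun a b => by
        simp only [tensorRightHomEquiv, Equiv.toFun_as_coe, Equiv.coe_fn_mk,
          MonoidalLinear.smul_whiskerRight, Linear.comp_smul, RingHom.id_apply] }
  exact ⟨(Linear.homCongr Λ (λ_ X).symm (Iso.refl (Z ⊗ X))).trans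
    (Φ.trans (Linear.homCongr Λ (Iso.refl (𝟙_ C)) (α_ Z X Xᘁ)))⟩

/-- A numerically trivial endomorphism of a power of `A` which is not nilpotent. -/
theorem grows_of_not_nilpotent (hR : IsReal Λ R) {A : C} (hA : R.CPlus A) (m : ℕ)
    (y : End (tp A m)) (hy : NumTriv (y : tp A m ⟶ tp A m)) (hn : ¬ IsNilpotent y) (N : ℕ) :
    (((bt R A ^ m + 1) ^ (2 * N) : ℕ) : ℕ∞) ≤ ((N + 1) ^ (bt R A ^ (2 * m) + 1) : ℕ) *
      dimE Λ (𝟙_ C ⟶ tp (A ⊗ Aᘁ) (m * (N + 1))) := by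
  have h1 : ¬ IsNilpotent (((homF Λ (tp A m)).map (y : tp A m ⟶ tp A m)).hom :
      Module.End Λ ((homF Λ (tp A m)).obj (tp A m))) := by
    rintro ⟨n, h0⟩
    refine hn ⟨n, ?_⟩
    have h2 : ∀ (n : ℕ) (v : tp A m ⟶ tp A m), ((((homF Λ (tp A m)).map
        (y : tp A m ⟶ tp A m)).hom : Module.End Λ ((homF Λ (tp A m)).obj (tp A m))) ^ n) v =
        v ≫ (y ^ n : End (tp A m)) := by
      intro n
      induction n with
      | zero => exact fun v => (Category.comp_id v).symm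
      | succ n ih =>
        intro v
        have h3 : (y ^ (n + 1) : End (tp A m)) = (y : tp A m ⟶ tp A m) ≫ (y ^ n : End (tp A m)) := by
          rw [pow_succ]
          rfl
        rw [h3, ← Category.assoc, ← ih]
        rw [pow_succ]
        rfl
    have h3 := h2 n (𝟙 _)
    rw [h0, Category.id_comp] at h3
    exact h3.symm
  have h2 := exp_gap hR (cplus_tp hR hA m) hy (homF Λ (tp A m)) h1 N
  rw [bt_tp, ← pow_mul, mul_comm m 2] at h2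
  refine h2.trans (mul_le_mul_right ?_ _)
  obtain ⟨e1⟩ := hom_dual_equiv (Λ := Λ) (tp A m) (tp (tp A m ⊗ (tp A m)ᘁ) N)
  obtain ⟨e2⟩ := dual_powers_iso A m (N + 1)
  refine le_of_eq ?_
  exact dimE_congr (e1.trans (Linear.homCongr Λ (Iso.refl (𝟙_ C)) e2))

/-- Exponential growth with a rate larger than `b ^ 2`: the dimension (a number or infinity) of
`K_0 ((𝒜 ⊗ 𝒜ᵒᵖ) ^ (m (N + 1)))_ℚ` is at least `(b ^ m + 1) ^ (2 N) / (N + 1) ^ (b ^ (2 m) + 1)` for all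
`N`. -/
def PowGrows (Λ : Type t) [Field Λ] [Linear Λ C] (A : C) (b m : ℕ) : Prop :=
  ∀ N : ℕ, (((b ^ m + 1) ^ (2 * N) : ℕ) : ℕ∞) ≤ ((N + 1) ^ (b ^ (2 * m) + 1) : ℕ) *
    dimE Λ (𝟙_ C ⟶ tp (A ⊗ Aᘁ) (m * (N + 1)))

/-- Slow growth implies nilpotence. -/
theorem nilpotent_of_rateLe (hR : IsReal Λ R) {A : C} (hA : R.CPlus A) (hb : 0 < bt R A)
    (h : RateLe Λ (homF Λ (𝟙_ C)) (A ⊗ Aᘁ) (bt R A ^ 2)) (m : ℕ) (y : End (tp A m))
    (hy : NumTriv (y : tp A m ⟶ tp A m)) : IsNilpotent y := by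
  by_contra hn
  rcases Nat.eq_zero_or_pos m with rfl | hm
  · have h1 := (numTriv_unit_iff hR (y : 𝟙_ C ⟶ 𝟙_ C)).1 hy (𝟙 _)
    rw [Category.comp_id] at h1
    exact hn ⟨1, by rw [pow_one]; exact h1⟩
  · obtain ⟨inst, hS⟩ := isPow_tensor_dual hR hA hb
    obtain ⟨a, ha, hev⟩ := growth_rate' hm hb _ (monotone_dimE hS (homF Λ (𝟙_ C)))
      (grows_of_not_nilpotent hR hA m y hy hn)
    obtain ⟨n, ⟨hn1, hn2⟩, hn3⟩ := ((h a ha).and_eventually hev).exists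
    have h5 := hn3 _ dimE_eq
    exact absurd hn2 (not_le.2 h5)

lemma small_of_beilinson (hR : IsReal Λ R) {T : C} (n : ℕ) (h : Beilinson (tp T n)) :
    Module.Finite Λ ((homF Λ (𝟙_ C)).obj (tp T n)) ∧
      finrank Λ ((homF Λ (𝟙_ C)).obj (tp T n)) ≤ bt R T ^ n := by
  refine small_of_injective (R := R) (M := fun _ => homF Λ (𝟙_ C)) n 0 ?_
  refine independent_of_kunneth hR ?_
  obtain ⟨α, β, hαβ, hexp⟩ := exists_dual hR (tp T n) (Λ := Λ)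
  refine ⟨α, β, hαβ, fun v => ?_⟩
  have key : ∀ v : 𝟙_ C ⟶ tp T n, v = ∑ j, (v ≫ β j) ≫ α j := fun v =>
    sub_eq_zero.1 (h _ ((numTriv_unit_iff hR _).1 (hexp v)))
  have h1 := key v
  have h2 : ∀ (w : 𝟙_ C ⟶ tp T n) j, ((homF Λ (𝟙_ C)).map (β j ≫ α j)).hom w =
      (w ≫ β j) ≫ α j := by
    intro w j
    rw [homF_map, Category.assoc]
  rw [Finset.sum_congr rfl fun j _ => h2 v j]
  exact h1

/-- The retract of a power. -/
theorem retract_dual_powers {T A : C} [ExactPairing T T] (i : A ⟶ T) (r : T ⟶ A)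
    (hir : i ≫ r = 𝟙 A) (n : ℕ) :
    ∃ (i' : tp (A ⊗ Aᘁ) n ⟶ tp T (2 * n)) (r' : tp T (2 * n) ⟶ tp (A ⊗ Aᘁ) n),
      i' ≫ r' = 𝟙 _ := by
  obtain ⟨j, s, hjs⟩ := retract_dual i r hir
  obtain ⟨i2, _⟩ := exists_tp_iso T 1 1
  let e1 : T ⊗ T ≅ tp T 2 := tensorIso (λ_ T).symm (λ_ T).symm ≪≫ i2
  have hiso : ∀ a, Nonempty (tp T (2 * a) ⊗ tp T 2 ≅ tp T (2 * a + 2)) := fun a => by
    obtain ⟨i, _⟩ := exists_tp_iso T (2 * a) 2
    exact ⟨i⟩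
  obtain ⟨e2⟩ := tp_congr e1 n
  obtain ⟨e3⟩ := Pool.Agent.N712.AF.tpIso T 2 hiso n
  have key : ∀ n, ∃ (i' : tp (A ⊗ Aᘁ) n ⟶ tp (T ⊗ T) n) (r' : tp (T ⊗ T) n ⟶ tp (A ⊗ Aᘁ) n),
      i' ≫ r' = 𝟙 _ := by
    intro n
    induction n with
    | zero => exact ⟨𝟙 _, 𝟙 _, Category.id_comp _⟩
    | succ n ih =>
      obtain ⟨i', r', h⟩ := ih
      refine ⟨i' ⊗ₘ (i ⊗ₘ j), r' ⊗ₘ (r ⊗ₘ s), ?_⟩
      rw [tensorHom_comp_tensorHom, tensorHom_comp_tensorHom, h, hir, hjs, id_tensorHom_id,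
        id_tensorHom_id]
  obtain ⟨i', r', h⟩ := key n
  refine ⟨i' ≫ (e2 ≪≫ e3).hom, (e2 ≪≫ e3).inv ≫ r', ?_⟩
  rw [Category.assoc, Iso.hom_inv_id_assoc, h]

/-- The equivalence. -/
theorem beilinson_iff {T : C} [ExactPairing T T] (hR : IsReal Λ R) {q : ℕ} (hq : 1 < q)
    (Fr : ∀ n, tp T n ⟶ tp T n) (hc : ∀ n, Killed q (homF Λ (𝟙_ C)) (Fr n))
    (hT : ∀ n, IsTateSS Λ R q (Fr n)) {A : C} (hA : R.CPlus A) (hb : 0 < bt R A)
    (i : A ⟶ T) (r : T ⟶ A) (hir : i ≫ r = 𝟙 A) :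
    (∀ n, Beilinson (tp (A ⊗ Aᘁ) n)) ↔ RateLe Λ (homF Λ (𝟙_ C)) (A ⊗ Aᘁ) (bt R A ^ 2) := by
  have e1 : bt R (A ⊗ Aᘁ) = bt R A ^ 2 := by rw [bt_tensor, bt_dual, sq]
  constructor
  · intro hall a ha
    refine Frequently.of_forall fun n => ?_
    obtain ⟨h1, h2⟩ := small_of_beilinson hR n (hall n)
    refine ⟨h1, ?_⟩
    have h3 : (finrank Λ ((homF Λ (𝟙_ C)).obj (tp (A ⊗ Aᘁ) n)) : ℝ) ≤
        ((bt R A ^ 2 : ℕ) : ℝ) ^ n := by
      rw [← e1]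
      exact_mod_cast h2
    exact h3.trans (pow_le_pow_left₀ (Nat.cast_nonneg _) ha.le n)
  · intro hsmall m
    by_contra hn
    obtain ⟨inst, hS⟩ := isPow_tensor_dual hR hA hb
    obtain ⟨i', r', hir'⟩ := retract_dual_powers i r hir m
    have h1 := grows_of_not_beilinson hR
      (cplus_tp hR (cplus_tensor hR hA (cplus_dual hR hA)) m) hq (Fr (2 * m)) (hT (2 * m))
      (hc (2 * m)) i' r' hir' hn
    rcases Nat.eq_zero_or_pos m with rfl | hm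
    · refine hn fun x hx => ?_
      have h2 := hx (𝟙 _)
      rwa [Category.comp_id] at h2
    · have hb2 : 0 < bt R A ^ 2 := by positivity
      have h3 : ∀ N : ℕ, ((((bt R A ^ 2) ^ m + 1) ^ (2 * N) : ℕ) : ℕ∞) ≤
          ((N + 1) ^ ((bt R A ^ 2) ^ (2 * m) + 1) : ℕ) *
            dimE Λ ((homF Λ (𝟙_ C)).obj (tp (A ⊗ Aᘁ) ((2 * N + 1) * m))) := by
        intro N
        have h4 := h1 N
        rw [bt_tp, e1, ← pow_mul (bt R A ^ 2) m 2, mul_comm m 2] at h4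
        refine h4.trans (mul_le_mul_right ?_ _)
        obtain ⟨e⟩ := powers_iso (A ⊗ Aᘁ) m N
        exact dimE_retract (homF Λ (𝟙_ C)) e.hom e.inv e.hom_inv_id
      obtain ⟨a, ha, hev⟩ := growth_rate hm hb2 _ (monotone_dimE hS (homF Λ (𝟙_ C))) h3
      obtain ⟨n, ⟨hn1, hn2⟩, hn3⟩ := ((hsmall a ha).and_eventually hev).exists
      have h5 := hn3 _ dimE_eq
      exact absurd hn2 (not_le.2 h5)

end Pool.Agent.T9h41.XG
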