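import Pool.Agent.T9h41.XG.Growth

/-!
# Words in two kinds of slots
-/

set_option autoImplicit false
set_option linter.unusedSectionVars false

open CategoryTheory Limits MonoidalCategory Module Polynomial
open Pool.Agent.Y112.SR Pool.Agent.Y112.KD Pool.Agent.N64.AF
open Pool.Agent.Y116.MT (tr)

namespace Pool.Agent.T9h41.XG

universe v u w t x

variable {C : Type u} [Category.{v} C] [Preadditive C] [MonoidalCategory C]
  [MonoidalPreadditive C] [SymmetricCategory C] [RightRigidCategory C]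
  {Λ : Type t} [Field Λ] [CharZero Λ] [Linear Λ C] [MonoidalLinear Λ C]
  {K : Type w} [Field K] [Algebra Λ K] {R : SuperRealisation C K}

lemma rank_restrict {U V : Type x} [AddCommGroup U] [Module Λ U] [AddCommGroup V] [Module Λ V]
    (g : V →ₗ[Λ] V) (ψ : U →ₗ[Λ] V) (hS : ∀ v ∈ LinearMap.range ψ, g v ∈ LinearMap.range ψ) :
    finrank Λ (LinearMap.range (g.restrict hS)) = finrank Λ (LinearMap.range (g ∘ₗ ψ)) := by
  have h1 : (LinearMap.range (g.restrict hS)).map (LinearMap.range ψ).subtype =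
      LinearMap.range (g ∘ₗ ψ) := by
    ext v
    constructor
    · rintro ⟨_, ⟨⟨_, ⟨u, rfl⟩⟩, rfl⟩, rfl⟩
      exact ⟨u, rfl⟩
    · rintro ⟨u, rfl⟩
      exact ⟨_, ⟨⟨ψ u, ⟨u, rfl⟩⟩, rfl⟩, rfl⟩
  rw [← h1]
  exact (Submodule.finrank_map_subtype_eq _ _).symm

/-- The natural transformation given by an endomorphism of the first factor. -/
def psi (F : C ⥤ ModuleCat.{x} Λ) {Y : C} (φ : Y ⟶ Y) (Z : C) :
    (tensorRight Z ⋙ tensorLeft Y ⋙ F) ⟶ (tensorRight Z ⋙ tensorLeft Y ⋙ F) where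
  app W := F.map (φ ▷ (W ⊗ Z))
  naturality {W W'} g := by
    change F.map (Y ◁ (g ▷ Z)) ≫ F.map (φ ▷ (W' ⊗ Z)) = F.map (φ ▷ (W ⊗ Z)) ≫ F.map (Y ◁ (g ▷ Z))
    rw [← F.map_comp, ← F.map_comp, whisker_exchange]

theorem phase2 (F : C ⥤ ModuleCat.{x} Λ) [F.Additive] {Y : C} (φ : Y ⟶ Y) (Z : C) {P : C}
    {f e : P ⟶ P} (hfe : e = 𝟙 P - f) (N : ℕ)
    (hfin : Module.Finite Λ (F.obj (Y ⊗ (tp P N ⊗ Z))))
    (hid : SlotZero (tensorRight Z ⋙ tensorLeft Y ⋙ F) (f ≫ f - f) N) (w : List Bool → ℕ)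
    (hw : ∀ l : List Bool, l.length = N →
      w l ≤ finrank Λ (LinearMap.range (F.map (φ ⊗ₘ (te f e l ⊗ₘ 𝟙 Z))).hom)) :
    wS w N [] ≤ finrank Λ (LinearMap.range (F.map (φ ▷ (tp P N ⊗ Z))).hom) := by
  set F2 : C ⥤ ModuleCat.{x} Λ := tensorRight Z ⋙ tensorLeft Y ⋙ F with hF2
  set G := sub F2 (fun W => LinearMap.range ((psi F φ Z).app W).hom) (range_stab (psi F φ Z)) with hG
  have hGfin : Module.Finite Λ (G.obj (tp P N)) := by
    have : Module.Finite Λ (F2.obj (tp P N)) := hfin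
    change Module.Finite Λ (LinearMap.range ((psi F φ Z).app (tp P N)).hom)
    infer_instance
  have hz : SlotZero G (f ≫ f - f) N := by
    intro n k h
    have h1 := hid n k h
    ext a
    apply Subtype.ext
    change (F2.map ((wF P k).map (tp P n ◁ (f ≫ f - f)))).hom a.1 = 0
    rw [h1]
    rfl
  have := words_total G hfe N hGfin hz w (fun l hl => ?_)
  · exact this
  · refine (hw l hl).trans (le_of_eq ?_)
    subst hl
    -- the two ranges
    have e1 : (F.map (φ ⊗ₘ (te f e l ⊗ₘ 𝟙 Z))).hom =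
        (F2.map (te f e l)).hom ∘ₗ ((psi F φ Z).app (tp P l.length)).hom := by
      rw [MonoidalCategory.tensorHom_def, F.map_comp, tensorHom_id]
      rfl
    rw [e1]
    exact (rank_restrict (F2.map (te f e l)).hom ((psi F φ Z).app (tp P l.length)).hom
      (range_stab (psi F φ Z) (te f e l))).symm

end Pool.Agent.T9h41.XG
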