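import Pool.Agent.T9h41.XG.Frob

/-!
# The powers of a self-dual object, and growth rates
-/

set_option autoImplicit false
set_option linter.unusedSectionVars false

open CategoryTheory Limits MonoidalCategory Module Filter Topology
open Pool.Agent.Y112.SR Pool.Agent.Y112.KD Pool.Agent.N64.AF Pool.Agent.N413.AFW

namespace Pool.Agent.T9h41.XG

universe v u w t x

section real

lemma eventually_small {b m D : ℕ} (hb : 0 < b) :
    ∃ a : ℝ, (b : ℝ) < a ∧ ∃ N₀ : ℕ, ∀ N ≥ N₀,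
      ((N + 1 : ℕ) : ℝ) ^ D * (a ^ m) ^ (2 * N + 3) < ((b : ℝ) ^ m + 1) ^ (2 * N) := by
  obtain ⟨a, hab, ham⟩ : ∃ a : ℝ, (b : ℝ) < a ∧ a ^ m < (b : ℝ) ^ m + 1 := by
    have h1 : ∀ᶠ y in 𝓝 (b : ℝ), y ^ m < (b : ℝ) ^ m + 1 :=
      ((continuous_pow m).tendsto (b : ℝ)).eventually_lt_const (by linarith)
    obtain ⟨ε, hε, h2⟩ := Metric.eventually_nhds_iff.1 h1
    refine ⟨b + ε / 2, by linarith, h2 ?_⟩
    rw [Real.dist_eq, add_sub_cancel_left, abs_of_pos (by linarith)]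
    linarith
  refine ⟨a, hab, ?_⟩
  set s : ℝ := (b : ℝ) ^ m + 1 with hs
  have hb' : (0 : ℝ) < b := by exact_mod_cast hb
  have ha0 : 0 < a := hb'.trans hab
  have hs0 : 0 < s := by positivity
  set c : ℝ := a ^ m with hc
  have hc0 : 0 < c := pow_pos ha0 m
  set r : ℝ := (c / s) ^ 2 with hr
  have hcs : c / s < 1 := (div_lt_one hs0).2 ham
  have hr0 : 0 < r := by positivity
  have hr1 : |r| < 1 := by
    rw [abs_of_pos hr0]
    have : 0 < c / s := by positivity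
    nlinarith
  have h1 := tendsto_pow_const_mul_const_pow_of_abs_lt_one D hr1
  have h2 : Tendsto (fun n : ℕ => ((n + 1 : ℕ) : ℝ) ^ D * r ^ (n + 1)) atTop (𝓝 0) :=
    h1.comp (tendsto_add_atTop_nat 1)
  have h3 : ∀ᶠ n : ℕ in atTop, ((n + 1 : ℕ) : ℝ) ^ D * r ^ (n + 1) < r / c ^ 3 :=
    h2.eventually_lt_const (by positivity)
  obtain ⟨N₀, hN⟩ := eventually_atTop.1 h3
  refine ⟨N₀, fun N hNN => ?_⟩
  have h4 := hN N hNN
  have h5 : ((N + 1 : ℕ) : ℝ) ^ D * r ^ N * c ^ 3 < 1 := by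
    have h6 : ((N + 1 : ℕ) : ℝ) ^ D * r ^ (N + 1) * (c ^ 3 / r) < r / c ^ 3 * (c ^ 3 / r) :=
      mul_lt_mul_of_pos_right h4 (by positivity)
    have h7 : r / c ^ 3 * (c ^ 3 / r) = 1 := by field_simp
    rw [h7] at h6
    calc ((N + 1 : ℕ) : ℝ) ^ D * r ^ N * c ^ 3
        = ((N + 1 : ℕ) : ℝ) ^ D * r ^ (N + 1) * (c ^ 3 / r) := by
          rw [pow_succ r N]
          field_simp
      _ < 1 := h6
  have h8 : r ^ N = c ^ (2 * N) / s ^ (2 * N) := by
    rw [hr, ← pow_mul, div_pow]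
  rw [h8] at h5
  have h9 : ((N + 1 : ℕ) : ℝ) ^ D * (c ^ (2 * N) / s ^ (2 * N)) * c ^ 3 =
      (((N + 1 : ℕ) : ℝ) ^ D * c ^ (2 * N + 3)) / s ^ (2 * N) := by
    rw [pow_add]
    ring
  rw [h9, div_lt_one (by positivity)] at h5
  exact h5

/-- A sequence which grows exponentially along the odd multiples of `m`. -/
theorem growth_rate {b m D : ℕ} (hm : 0 < m) (hb : 0 < b) (d : ℕ → ℕ∞) (hd : Monotone d)
    (h : ∀ N : ℕ, (((b ^ m + 1) ^ (2 * N) : ℕ) : ℕ∞) ≤ ((N + 1) ^ D : ℕ) * d ((2 * N + 1) * m)) :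
    ∃ a : ℝ, (b : ℝ) < a ∧ ∀ᶠ n in atTop, ∀ x : ℕ, d n = x → a ^ n < (x : ℝ) := by
  obtain ⟨a, hab, N₀, hN⟩ := eventually_small (m := m) (D := D) hb
  have hb' : (1 : ℝ) ≤ b := by exact_mod_cast hb
  have ha1 : 1 ≤ a := hb'.trans hab.le
  refine ⟨a, hab, ?_⟩
  rw [eventually_atTop]
  refine ⟨(2 * N₀ + 3) * m, fun n hn x hx => ?_⟩
  set N := (n / m - 1) / 2 with hNdef
  have h1 : 2 * N₀ + 3 ≤ n / m := (Nat.le_div_iff_mul_le hm).2 hn
  have h2 : N₀ ≤ N := by omega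
  have h3 : (2 * N + 1) * m ≤ n := by
    have : 2 * N + 1 ≤ n / m := by omega
    exact (Nat.mul_le_mul_right m this).trans (Nat.div_mul_le_self n m)
  have h4 : n ≤ (2 * N + 3) * m := by
    have h5 : n / m + 1 ≤ 2 * N + 3 := by omega
    have h6 : n < (n / m + 1) * m := by
      have := Nat.lt_div_mul_add (a := n) hm
      rw [add_mul, one_mul]
      exact this
    exact h6.le.trans (Nat.mul_le_mul_right m h5)
  have h5 := (h N).trans (mul_le_mul_right (hd h3) _)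
  rw [hx] at h5
  have h6 : (b ^ m + 1) ^ (2 * N) ≤ (N + 1) ^ D * x := by exact_mod_cast h5
  have h7 : ((b : ℝ) ^ m + 1) ^ (2 * N) ≤ ((N + 1 : ℕ) : ℝ) ^ D * x := by exact_mod_cast h6
  by_contra hcon
  rw [not_lt] at hcon
  have h8 : (x : ℝ) ≤ (a ^ m) ^ (2 * N + 3) := by
    refine hcon.trans ?_
    rw [← pow_mul, mul_comm m]
    exact pow_le_pow_right₀ ha1 h4
  have h9 := hN N h2
  have h10 : ((N + 1 : ℕ) : ℝ) ^ D * x ≤ ((N + 1 : ℕ) : ℝ) ^ D * (a ^ m) ^ (2 * N + 3) :=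
    mul_le_mul_of_nonneg_left h8 (by positivity)
  linarith

end real

section iso

variable {C : Type u} [Category.{v} C] [MonoidalCategory C] [SymmetricCategory C]

lemma tp_congr {P P' : C} (i : P ≅ P') : ∀ n, Nonempty (tp P n ≅ tp P' n)
  | 0 => ⟨Iso.refl _⟩
  | n + 1 => by
    obtain ⟨j⟩ := tp_congr i n
    exact ⟨tensorIso j i⟩

lemma dp_iso (D : C) : ∀ n, Nonempty (dp D n ≅ tp D n)
  | 0 => ⟨Iso.refl _⟩
  | n + 1 => by
    obtain ⟨j⟩ := dp_iso D n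
    exact ⟨whiskerLeftIso D j ≪≫ β_ D (tp D n)⟩

theorem powers_iso [Preadditive C] [MonoidalPreadditive C] [RightRigidCategory C] (T : C) [ExactPairing T T] (m N : ℕ) :
    Nonempty (tp (tp T m ⊗ (tp T m)ᘁ) N ⊗ tp T m ≅ tp T ((2 * N + 1) * m)) := by
  have hiso : ∀ k a, Nonempty (tp T (k * a) ⊗ tp T k ≅ tp T (k * a + k)) := fun k a => by
    obtain ⟨i, _⟩ := exists_tp_iso T (k * a) k
    exact ⟨i⟩
  let i1 : (tp T m)ᘁ ≅ dp T m := rightDualIso inferInstance (pairTp T T m)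
  obtain ⟨i2⟩ := dp_iso T m
  obtain ⟨i3, _⟩ := exists_tp_iso T m m
  obtain ⟨i4⟩ := tp_congr (whiskerLeftIso (tp T m) (i1 ≪≫ i2) ≪≫ i3) N
  obtain ⟨i5⟩ := Pool.Agent.N712.AF.tpIso T (m + m) (hiso (m + m)) N
  obtain ⟨i6, _⟩ := exists_tp_iso T ((m + m) * N) m
  have e : (2 * N + 1) * m = (m + m) * N + m := by ring
  rw [e]
  exact ⟨whiskerRightIso (i4 ≪≫ i5) (tp T m) ≪≫ i6⟩

end iso

section mono

variable {C : Type u} [Category.{v} C] [Preadditive C] {Λ : Type t} [Field Λ] [Linear Λ C]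

lemma dimE_retract (F : C ⥤ ModuleCat.{x} Λ) {Y Z : C} (i : Y ⟶ Z) (r : Z ⟶ Y)
    (h : i ≫ r = 𝟙 Y) : dimE Λ (F.obj Y) ≤ dimE Λ (F.obj Z) := by
  by_cases hZ : Module.Finite Λ (F.obj Z)
  · have h0 : ∀ v, (F.map r).hom ((F.map i).hom v) = v := by
      intro v
      have h1 := congrArg F.map h
      rw [F.map_comp, F.map_id] at h1
      exact congrArg (fun g => (ModuleCat.Hom.hom g) v) h1
    have hY : Module.Finite Λ (F.obj Y) :=
      Module.Finite.of_surjective (F.map r).hom fun v => ⟨_, h0 v⟩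
    rw [dimE_eq, dimE_eq]
    have h1 : Function.Injective (F.map i).hom := fun a b hab => by
      rw [← h0 a, ← h0 b, hab]
    exact_mod_cast LinearMap.finrank_le_finrank_of_injective h1
  · rw [dimE_top hZ]
    exact le_top

end mono

end Pool.Agent.T9h41.XG
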