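import Pool.Agent.N64.AF.M5
import Pool.Agent.T9h41.XG.Fit

/-!
# Words of endomorphisms of tensor powers
-/

set_option autoImplicit false
set_option linter.unusedSectionVars false

open CategoryTheory Limits MonoidalCategory Module
open Pool.Agent.Y112.SR Pool.Agent.Y112.KD Pool.Agent.N64.AF
open Pool.Agent.Y116.MT (tr)

namespace Pool.Agent.T9h41.XG

universe v u w t x

section words

variable {C : Type u} [Category.{v} C] [MonoidalCategory C]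

/-- The number of the letters `false`. -/
def nf : List Bool → ℕ
  | [] => 0
  | true :: l => nf l
  | false :: l => nf l + 1

/-- The number of the letters `true`. -/
def nt : List Bool → ℕ
  | [] => 0
  | true :: l => nt l + 1
  | false :: l => nt l

lemma nf_add_nt : ∀ l : List Bool, nf l + nt l = l.length
  | [] => rfl
  | true :: l => by
    have := nf_add_nt l
    simp only [nf, nt, List.length_cons]
    omega
  | false :: l => by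
    have := nf_add_nt l
    simp only [nf, nt, List.length_cons]
    omega

/-- The tensor product of `f` (at the letters `true`) and `e` (at the letters `false`). -/
def te {P : C} (f e : P ⟶ P) : (l : List Bool) → (tp P l.length ⟶ tp P l.length)
  | [] => 𝟙 _
  | true :: l => te f e l ⊗ₘ f
  | false :: l => te f e l ⊗ₘ e

/-- The tensor power of an endomorphism. -/
def pw {P : C} (f : P ⟶ P) : (n : ℕ) → (tp P n ⟶ tp P n)
  | 0 => 𝟙 _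
  | n + 1 => pw f n ⊗ₘ f

variable [SymmetricCategory C]

/-- The exchange of the last two factors. -/
def rc (X Y Z : C) : (X ⊗ Y) ⊗ Z ≅ (X ⊗ Z) ⊗ Y :=
  α_ X Y Z ≪≫ whiskerLeftIso X (β_ Y Z) ≪≫ (α_ X Z Y).symm

lemma rc_nat {X Y Z X' Y' Z' : C} (a : X ⟶ X') (b : Y ⟶ Y') (c : Z ⟶ Z') :
    ((a ⊗ₘ b) ⊗ₘ c) ≫ (rc X' Y' Z').hom = (rc X Y Z).hom ≫ ((a ⊗ₘ c) ⊗ₘ b) := by
  simp only [rc, Iso.trans_hom, whiskerLeftIso_hom, Iso.symm_hom, Category.assoc]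
  rw [associator_naturality_assoc, ← associator_inv_naturality]
  congr 1
  rw [← Category.assoc, ← Category.assoc]
  congr 1
  rw [← id_tensorHom, ← id_tensorHom, tensorHom_comp_tensorHom, tensorHom_comp_tensorHom,
    BraidedCategory.braiding_naturality, Category.comp_id, Category.id_comp]

/-- The letters can be sorted. -/
theorem sort {P : C} (f e : P ⟶ P) : ∀ l : List Bool,
    ∃ σ : tp P l.length ≅ tp P (nf l) ⊗ tp P (nt l),
      te f e l ≫ σ.hom = σ.hom ≫ (pw e (nf l) ⊗ₘ pw f (nt l))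
  | [] => ⟨(λ_ (𝟙_ C)).symm, by
      change 𝟙 _ ≫ _ = _ ≫ (𝟙 _ ⊗ₘ 𝟙 _)
      rw [Category.id_comp, id_tensorHom_id, Category.comp_id]⟩
  | true :: l => by
    obtain ⟨σ, hσ⟩ := sort f e l
    refine ⟨whiskerRightIso σ P ≪≫ α_ _ _ _, ?_⟩
    change (te f e l ⊗ₘ f) ≫ (σ.hom ▷ P) ≫ (α_ _ _ _).hom = ((σ.hom ▷ P) ≫ (α_ _ _ _).hom) ≫
      (pw e (nf l) ⊗ₘ (pw f (nt l) ⊗ₘ f))
    rw [Category.assoc, ← associator_naturality, ← Category.assoc, ← Category.assoc,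
      ← tensorHom_id, tensorHom_comp_tensorHom, tensorHom_comp_tensorHom, hσ, Category.comp_id,
      Category.id_comp]
  | false :: l => by
    obtain ⟨σ, hσ⟩ := sort f e l
    refine ⟨whiskerRightIso σ P ≪≫ rc _ _ _, ?_⟩
    change (te f e l ⊗ₘ e) ≫ (σ.hom ▷ P) ≫ (rc _ _ _).hom = ((σ.hom ▷ P) ≫ (rc _ _ _).hom) ≫
      ((pw e (nf l) ⊗ₘ e) ⊗ₘ pw f (nt l))
    rw [Category.assoc, ← rc_nat, ← Category.assoc, ← Category.assoc,
      ← tensorHom_id, tensorHom_comp_tensorHom, tensorHom_comp_tensorHom, hσ, Category.comp_id,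
      Category.id_comp]

/-- The tensor powers of a tensor product. -/
theorem split {P P' : C} : ∀ n : ℕ, ∃ τ : tp (P ⊗ P') n ≅ tp P n ⊗ tp P' n,
    ∀ (u : P ⟶ P) (u' : P' ⟶ P'), pw (u ⊗ₘ u') n ≫ τ.hom = τ.hom ≫ (pw u n ⊗ₘ pw u' n)
  | 0 => ⟨(λ_ (𝟙_ C)).symm, fun u u' => by
      change 𝟙 _ ≫ _ = _ ≫ (𝟙 _ ⊗ₘ 𝟙 _)
      rw [Category.id_comp, id_tensorHom_id, Category.comp_id]⟩
  | n + 1 => by
    obtain ⟨τ, hτ⟩ := split n
    let m : (tp P n ⊗ tp P' n) ⊗ (P ⊗ P') ≅ (tp P n ⊗ P) ⊗ (tp P' n ⊗ P') :=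
      ⟨tensorμ (tp P n) (tp P' n) P P', tensorδ (tp P n) (tp P' n) P P', by simp, by simp⟩
    refine ⟨whiskerRightIso τ (P ⊗ P') ≪≫ m, fun u u' => ?_⟩
    change (pw (u ⊗ₘ u') n ⊗ₘ (u ⊗ₘ u')) ≫ (τ.hom ▷ (P ⊗ P')) ≫ tensorμ _ _ _ _ =
      ((τ.hom ▷ (P ⊗ P')) ≫ tensorμ _ _ _ _) ≫ ((pw u n ⊗ₘ u) ⊗ₘ (pw u' n ⊗ₘ u'))
    rw [Category.assoc, ← tensorμ_natural, ← Category.assoc, ← Category.assoc,
      ← tensorHom_id, tensorHom_comp_tensorHom, tensorHom_comp_tensorHom, hτ, Category.comp_id,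
      Category.id_comp]

end words

section compress

variable {C : Type u} [Category.{v} C] [MonoidalCategory C] [RightRigidCategory C]

/-- The inclusion of `X` in `(X ⊗ Xᘁ) ⊗ X`. -/
def inc (X : C) : X ⟶ (X ⊗ Xᘁ) ⊗ X := (λ_ X).inv ≫ η_ X Xᘁ ▷ X

/-- The projection of `(X ⊗ Xᘁ) ⊗ X` to `X`. -/
def prj (X : C) : (X ⊗ Xᘁ) ⊗ X ⟶ X := (α_ X Xᘁ X).hom ≫ X ◁ ε_ X Xᘁ ≫ (ρ_ X).hom

lemma inc_prj (X : C) : inc X ≫ prj X = 𝟙 X := by
  unfold inc prj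
  rw [Category.assoc, ExactPairing.evaluation_coevaluation_assoc]
  simp

lemma compress_one {X : C} (u w : X ⟶ X) :
    inc X ≫ ((u ⊗ₘ (rightAdjointMate u)) ⊗ₘ w) ≫ prj X = w ≫ u ≫ u := by
  have e1 : ((u ⊗ₘ (rightAdjointMate u)) ⊗ₘ w) = (X ⊗ Xᘁ) ◁ w ≫ (X ◁ (rightAdjointMate u)) ▷ X ≫ (u ▷ Xᘁ) ▷ X := by
    rw [tensorHom_def' (u ⊗ₘ (rightAdjointMate u)) w, tensorHom_def' u (rightAdjointMate u), comp_whiskerRight]
  have e2 : (X ◁ (rightAdjointMate u)) ▷ X ≫ (u ▷ Xᘁ) ▷ X ≫ prj X = (X ⊗ Xᘁ) ◁ u ≫ prj X ≫ u := by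
    unfold prj
    rw [associator_naturality_left_assoc, ← whisker_exchange_assoc, rightUnitor_naturality,
      associator_naturality_middle_assoc, ← whiskerLeft_comp_assoc,
      rightAdjointMate_comp_evaluation, whiskerLeft_comp_assoc]
    simp only [Category.assoc, associator_naturality_right_assoc]
  have e3 : ∀ z : X ⟶ X, inc X ≫ (X ⊗ Xᘁ) ◁ z = z ≫ inc X := by
    intro z
    unfold inc
    rw [Category.assoc, ← whisker_exchange, leftUnitor_inv_naturality_assoc]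
  rw [e1, Category.assoc, Category.assoc, e2, ← Category.assoc, e3, Category.assoc,
    ← Category.assoc (inc X), e3, Category.assoc, ← Category.assoc (inc X), inc_prj,
    Category.id_comp]

/-- The inclusion of `X` in `(X ⊗ Xᘁ) ^ j ⊗ X`. -/
def incs (X : C) : (j : ℕ) → (X ⟶ tp (X ⊗ Xᘁ) j ⊗ X)
  | 0 => (λ_ X).inv
  | j + 1 => incs X j ≫ tp (X ⊗ Xᘁ) j ◁ inc X ≫ (α_ _ _ _).inv

/-- The projection of `(X ⊗ Xᘁ) ^ j ⊗ X` to `X`. -/
def prjs (X : C) : (j : ℕ) → (tp (X ⊗ Xᘁ) j ⊗ X ⟶ X)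
  | 0 => (λ_ X).hom
  | j + 1 => (α_ _ _ _).hom ≫ tp (X ⊗ Xᘁ) j ◁ prj X ≫ prjs X j

/-- The powers of an endomorphism. -/
def pwc {X : C} (u : X ⟶ X) : ℕ → (X ⟶ X)
  | 0 => 𝟙 X
  | n + 1 => u ≫ pwc u n

lemma pwc_comm {X : C} (u : X ⟶ X) (n : ℕ) : u ≫ pwc u n = pwc u n ≫ u := by
  induction n with
  | zero => simp [pwc]
  | succ n ih => rw [pwc, Category.assoc, ← ih]

lemma compress {X : C} (u : X ⟶ X) (j : ℕ) (w : X ⟶ X) :
    incs X j ≫ (pw (u ⊗ₘ (rightAdjointMate u)) j ⊗ₘ w) ≫ prjs X j = w ≫ pwc (u ≫ u) j := by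
  induction j generalizing w with
  | zero =>
    change (λ_ X).inv ≫ (𝟙 _ ⊗ₘ w) ≫ (λ_ X).hom = w ≫ 𝟙 X
    rw [id_tensorHom, leftUnitor_naturality, Iso.inv_hom_id_assoc, Category.comp_id]
  | succ j ih =>
    change (incs X j ≫ tp (X ⊗ Xᘁ) j ◁ inc X ≫ (α_ _ _ _).inv) ≫
      ((pw (u ⊗ₘ (rightAdjointMate u)) j ⊗ₘ (u ⊗ₘ (rightAdjointMate u))) ⊗ₘ w) ≫ (α_ _ _ _).hom ≫ tp (X ⊗ Xᘁ) j ◁ prj X ≫
        prjs X j = w ≫ (u ≫ u) ≫ pwc (u ≫ u) j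
    have e1 : (tp (X ⊗ Xᘁ) j ◁ inc X) ≫ (α_ _ _ _).inv ≫
        ((pw (u ⊗ₘ (rightAdjointMate u)) j ⊗ₘ (u ⊗ₘ (rightAdjointMate u))) ⊗ₘ w) ≫ (α_ _ _ _).hom ≫ tp (X ⊗ Xᘁ) j ◁ prj X =
        (pw (u ⊗ₘ (rightAdjointMate u)) j ⊗ₘ (w ≫ u ≫ u)) := by
      rw [associator_naturality_assoc, Iso.inv_hom_id_assoc, ← id_tensorHom, ← id_tensorHom,
        tensorHom_comp_tensorHom, tensorHom_comp_tensorHom, Category.comp_id, Category.id_comp,
        compress_one]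
    have e2 := ih (w ≫ u ≫ u)
    rw [← e1] at e2
    simp only [Category.assoc] at e2 ⊢
    exact e2

end compress

end Pool.Agent.T9h41.XG
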